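import Mathlib

/-!
# The limit of a function satisfying the equation of Buchstab

If `P` is continuous on `[1,∞)`, `s P(s) = 1` on `[1,2]`,
`s P(s) = 1 + ∫_2^s P(x-1) dx` for `s ≥ 2` and `P → ℓ`, then `ℓ = exp(-γ)`.
The proof is by the Laplace transform.
-/

set_option autoImplicit false

namespace Pool.Agent.H50.LS.Buch

open Filter MeasureTheory Set Topology

/-- A continuous function on `[1,∞)` with a limit is bounded. -/
theorem bdd {P : ℝ → ℝ} {ℓ : ℝ} (hc : ContinuousOn P (Ici 1)) (hl : Tendsto P atTop (𝓝 ℓ)) :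
    ∃ M : ℝ, 0 < M ∧ ∀ s : ℝ, 1 ≤ s → |P s| ≤ M := by
  have h1 : ∀ᶠ s in atTop, |P s| < |ℓ| + 1 := by
    have := hl.abs
    exact this.eventually (gt_mem_nhds (by linarith))
  obtain ⟨S, hS⟩ := eventually_atTop.1 h1
  obtain ⟨C, hC⟩ := (isCompact_Icc (a := (1 : ℝ)) (b := S)).exists_bound_of_continuousOn
    (hc.mono (fun x hx => hx.1))
  refine ⟨max C (|ℓ| + 1), lt_max_of_lt_right (by positivity), fun s hs => ?_⟩
  rcases le_total s S with h | h
  · exact le_max_of_le_left (by simpa using hC s ⟨hs, h⟩)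
  · exact le_max_of_le_right (hS s h).le

/-- `∫_{s > a} exp(-x s) ds`. -/
theorem int_exp {x : ℝ} (hx : 0 < x) (a : ℝ) :
    IntegrableOn (fun s : ℝ => Real.exp (-x * s)) (Ioi a) ∧
      ∫ s in Ioi a, Real.exp (-x * s) = Real.exp (-x * a) / x := by
  refine ⟨integrableOn_exp_mul_Ioi (by linarith) a, ?_⟩
  rw [integral_exp_mul_Ioi (by linarith)]
  field_simp

/-- `s exp(-x s)` is integrable on `(a, ∞)`. -/
theorem int_sexp {x : ℝ} (hx : 0 < x) {a : ℝ} (ha : 0 ≤ a) :
    IntegrableOn (fun s : ℝ => s * Real.exp (-x * s)) (Ioi a) := by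
  have h := integrableOn_rpow_mul_exp_neg_mul_rpow (s := 1) (p := 1) (by norm_num) (by norm_num) hx
  refine (h.congr_fun (fun s _ => ?_) measurableSet_Ioi).mono_set (Ioi_subset_Ioi ha)
  simp

section

variable {P : ℝ → ℝ} {M : ℝ}

theorem meas (hc : ContinuousOn P (Ici 1)) : AEStronglyMeasurable P (volume.restrict (Ioi 1)) :=
  (hc.mono Ioi_subset_Ici_self).aestronglyMeasurable measurableSet_Ioi

theorem intL (hc : ContinuousOn P (Ici 1)) (hM : ∀ s : ℝ, 1 ≤ s → |P s| ≤ M) {x : ℝ}
    (hx : 0 < x) : IntegrableOn (fun s : ℝ => Real.exp (-x * s) * P s) (Ioi 1) := by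
  refine ((int_exp hx 1).1.const_mul M).mono' ?_ ?_
  · exact (Continuous.aestronglyMeasurable (by fun_prop)).mul (meas hc)
  · refine (ae_restrict_iff' measurableSet_Ioi).2 (Eventually.of_forall fun s hs => ?_)
    rw [norm_mul, Real.norm_eq_abs, Real.norm_eq_abs, abs_of_pos (Real.exp_pos _), mul_comm]
    exact mul_le_mul_of_nonneg_right (hM s (le_of_lt hs)) (Real.exp_pos _).le

theorem intL' (hc : ContinuousOn P (Ici 1)) (hM : ∀ s : ℝ, 1 ≤ s → |P s| ≤ M) {x : ℝ}
    (hx : 0 < x) : IntegrableOn (fun s : ℝ => Real.exp (-x * s) * (s * P s)) (Ioi 1) := by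
  refine ((int_sexp hx (a := 1) (by norm_num)).const_mul M).mono' ?_ ?_
  · exact (Continuous.aestronglyMeasurable (by fun_prop)).mul
      ((Continuous.aestronglyMeasurable (by fun_prop)).mul (meas hc))
  · refine (ae_restrict_iff' measurableSet_Ioi).2 (Eventually.of_forall fun s hs => ?_)
    have hs0 : (0 : ℝ) < s := lt_trans one_pos hs
    rw [norm_mul, norm_mul, Real.norm_eq_abs, Real.norm_eq_abs, Real.norm_eq_abs,
      abs_of_pos (Real.exp_pos _), abs_of_pos hs0]
    have := mul_le_mul_of_nonneg_left (hM s (le_of_lt hs))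
      (mul_nonneg (Real.exp_pos (-x * s)).le hs0.le)
    nlinarith [this]

/-- The Laplace transform of `P` on `(1, ∞)`. -/
noncomputable def Lap (P : ℝ → ℝ) (x : ℝ) : ℝ := ∫ s in Ioi (1 : ℝ), Real.exp (-x * s) * P s

theorem hasDerivAt_Lap (hc : ContinuousOn P (Ici 1))
    (hM : ∀ s : ℝ, 1 ≤ s → |P s| ≤ M) {x : ℝ} (hx : 0 < x) :
    HasDerivAt (Lap P) (-∫ s in Ioi (1 : ℝ), Real.exp (-x * s) * (s * P s)) x := by
  have key := (hasDerivAt_integral_of_dominated_loc_of_deriv_le (μ := volume.restrict (Ioi (1 : ℝ)))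
    (F := fun x s => Real.exp (-x * s) * P s) (F' := fun x s => -(Real.exp (-x * s) * (s * P s)))
    (x₀ := x) (s := Metric.ball x (x / 2)) (bound := fun s => M * (s * Real.exp (-(x / 2) * s)))
    (Metric.ball_mem_nhds x (by linarith)) ?_ (intL hc hM hx) (intL' hc hM hx).neg.1
    ?_ ((int_sexp (by linarith) (by norm_num)).const_mul M) ?_).2
  · rw [integral_neg] at key
    exact key
  · refine Eventually.of_forall fun y => ?_
    exact (Continuous.aestronglyMeasurable (by fun_prop)).mul (meas hc)
  · refine (ae_restrict_iff' measurableSet_Ioi).2 (Eventually.of_forall fun s hs y hy => ?_)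
    have hs0 : (0 : ℝ) < s := lt_trans one_pos hs
    have hy' : x / 2 < y := by
      have := Metric.mem_ball.1 hy
      rw [Real.dist_eq, abs_lt] at this
      linarith
    rw [norm_neg, norm_mul, norm_mul, Real.norm_eq_abs, Real.norm_eq_abs, Real.norm_eq_abs,
      abs_of_pos (Real.exp_pos _), abs_of_pos hs0]
    have h1 : Real.exp (-y * s) ≤ Real.exp (-(x / 2) * s) := by
      apply Real.exp_le_exp.2
      nlinarith
    have h2 := hM s (le_of_lt hs)
    calc Real.exp (-y * s) * (s * |P s|) ≤ Real.exp (-(x / 2) * s) * (s * M) := by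
          apply mul_le_mul h1 (mul_le_mul_of_nonneg_left h2 hs0.le) (by positivity) (by positivity)
      _ = M * (s * Real.exp (-(x / 2) * s)) := by ring
  · refine Eventually.of_forall fun s y _ => ?_
    have h := (((hasDerivAt_id y).neg.mul_const s).exp).mul_const (P s)
    refine h.congr_deriv ?_
    simp
    ring

/-- The functional equation of the transform. -/
theorem Lap_eq (hc : ContinuousOn P (Ici 1))
    (hM : ∀ s : ℝ, 1 ≤ s → |P s| ≤ M)
    (h1 : ∀ s : ℝ, 1 ≤ s → s ≤ 2 → s * P s = 1)
    (h2 : ∀ s : ℝ, 2 ≤ s → s * P s = 1 + ∫ x in (2 : ℝ)..s, P (x - 1)) {x : ℝ} (hx : 0 < x) :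
    ∫ s in Ioi (1 : ℝ), Real.exp (-x * s) * (s * P s) = Real.exp (-x) / x * (1 + Lap P x) := by
  have hint := intL' hc hM hx
  have hsplit : ∫ s in Ioi (1 : ℝ), Real.exp (-x * s) * (s * P s) =
      (∫ s in Ioc (1 : ℝ) 2, Real.exp (-x * s) * (s * P s)) +
        ∫ s in Ioi (2 : ℝ), Real.exp (-x * s) * (s * P s) := by
    rw [← setIntegral_union (Ioc_disjoint_Ioi le_rfl) measurableSet_Ioi
      (hint.mono_set Ioc_subset_Ioi_self) (hint.mono_set (Ioi_subset_Ioi (by norm_num))),
      Ioc_union_Ioi_eq_Ioi (by norm_num)]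
  have hA : ∫ s in Ioc (1 : ℝ) 2, Real.exp (-x * s) * (s * P s) =
      (Real.exp (-x) - Real.exp (-x * 2)) / x := by
    have e1 : ∫ s in Ioc (1 : ℝ) 2, Real.exp (-x * s) * (s * P s) =
        ∫ s in Ioc (1 : ℝ) 2, Real.exp (-x * s) :=
      setIntegral_congr_fun measurableSet_Ioc fun s hs => by
        rw [h1 s hs.1.le hs.2, mul_one]
    have e2 : (∫ s in Ioc (1 : ℝ) 2, Real.exp (-x * s)) =
        (∫ s in Ioi (1 : ℝ), Real.exp (-x * s)) - ∫ s in Ioi (2 : ℝ), Real.exp (-x * s) := by
      have := setIntegral_union (f := fun s : ℝ => Real.exp (-x * s))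
        (Ioc_disjoint_Ioi (le_refl (2 : ℝ))) measurableSet_Ioi
        ((int_exp hx 1).1.mono_set Ioc_subset_Ioi_self) (int_exp hx 2).1
      rw [Ioc_union_Ioi_eq_Ioi (by norm_num : (1 : ℝ) ≤ 2)] at this
      rw [this]; ring
    rw [e1, e2, (int_exp hx 1).2, (int_exp hx 2).2]
    rw [mul_one]
    ring
  -- the second part
  set W : ℝ → ℝ := fun s => 1 + ∫ t in (2 : ℝ)..s, P (t - 1) with hW
  have hPc : ∀ s : ℝ, 2 < s → ContinuousAt (fun t => P (t - 1)) s := fun s hs => by
    have : ContinuousAt P (s - 1) := hc.continuousAt (Ici_mem_nhds (by linarith))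
    exact ContinuousAt.comp (f := fun t : ℝ => t - 1) this (by fun_prop)
  have hcon : ContinuousOn (fun t => P (t - 1)) (Ici 2) := by
    refine hc.comp (by fun_prop) fun t ht => ?_
    have : (2 : ℝ) ≤ t := ht
    show (1 : ℝ) ≤ t - 1
    linarith
  have hWd : ∀ s : ℝ, 2 < s → HasDerivAt W (P (s - 1)) s := fun s hs => by
    have hii : IntervalIntegrable (fun t => P (t - 1)) volume 2 s := by
      refine (hcon.mono fun t ht => ?_).intervalIntegrable
      rw [uIcc_of_le hs.le] at ht
      exact ht.1
    have := intervalIntegral.integral_hasDerivAt_right hii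
      ((hcon.mono Ioi_subset_Ici_self).stronglyMeasurableAtFilter isOpen_Ioi s hs) (hPc s hs)
    exact this.const_add 1
  have hWb : ∀ s : ℝ, 2 ≤ s → W s = s * P s := fun s hs => (h2 s hs).symm
  have hWc : ContinuousOn W (Ici 2) := by
    refine ContinuousOn.congr (f := fun s => s * P s) ?_ (fun s hs => hWb s hs)
    exact continuousOn_id.mul (hc.mono (Ici_subset_Ici.2 (by norm_num)))
  have hB : ∫ s in Ioi (2 : ℝ), (Real.exp (-x * s) * (s * P s) -
      Real.exp (-x * s) / x * P (s - 1)) = Real.exp (-x * 2) / x := by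
    have hint2 : IntegrableOn (fun s => Real.exp (-x * s) / x * P (s - 1)) (Ioi 2) := by
      refine (((int_exp hx 2).1.div_const x).const_mul M).mono' ?_ ?_
      · exact (Continuous.aestronglyMeasurable (by fun_prop)).mul
          ((hcon.mono Ioi_subset_Ici_self).aestronglyMeasurable measurableSet_Ioi)
      · refine (ae_restrict_iff' measurableSet_Ioi).2 (Eventually.of_forall fun s hs => ?_)
        have hs2 : (2 : ℝ) < s := hs
        rw [norm_mul, norm_div, Real.norm_eq_abs, Real.norm_eq_abs, Real.norm_eq_abs,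
          abs_of_pos (Real.exp_pos _), abs_of_pos hx, mul_comm]
        exact mul_le_mul_of_nonneg_right (hM _ (by linarith)) (by positivity)
    have := integral_Ioi_of_hasDerivAt_of_tendsto (a := (2 : ℝ)) (m := 0)
      (f := fun s => -(Real.exp (-x * s) / x) * W s)
      (f' := fun s => Real.exp (-x * s) * (s * P s) - Real.exp (-x * s) / x * P (s - 1)) ?_ ?_ ?_ ?_
    · rw [this]
      simp [hW]
    · refine ContinuousWithinAt.mul ?_ (hWc 2 self_mem_Ici)
      exact (Continuous.continuousWithinAt (by fun_prop))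
    · intro s hs
      have hs2 : (2 : ℝ) < s := hs
      have he : HasDerivAt (fun s : ℝ => -(Real.exp (-x * s) / x)) (Real.exp (-x * s)) s := by
        have h := (((hasDerivAt_id s).const_mul (-x)).exp.div_const x).neg
        refine h.congr_deriv ?_
        simp only [id]
        field_simp
      refine (he.mul (hWd s hs2)).congr_deriv ?_
      rw [hWb s hs2.le]
      ring
    · exact (hint.mono_set (Ioi_subset_Ioi (by norm_num))).sub hint2
    · -- the limit at infinity
      have hb : ∀ᶠ s in atTop, |-(Real.exp (-x * s) / x) * W s| ≤ M / x * (s * Real.exp (-x * s)) := by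
        filter_upwards [eventually_ge_atTop 2] with s hs
        rw [hWb s hs, abs_mul, abs_neg, abs_div, abs_of_pos hx, abs_of_pos (Real.exp_pos _), abs_mul,
          abs_of_pos (by linarith : (0 : ℝ) < s)]
        have := mul_le_mul_of_nonneg_left (hM s (by linarith))
          (by positivity : 0 ≤ Real.exp (-x * s) / x * s)
        calc Real.exp (-x * s) / x * (s * |P s|) = Real.exp (-x * s) / x * s * |P s| := by ring
          _ ≤ Real.exp (-x * s) / x * s * M := this
          _ = M / x * (s * Real.exp (-x * s)) := by ring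
      have ht : Tendsto (fun s : ℝ => M / x * (s * Real.exp (-x * s))) atTop (𝓝 0) := by
        have h := Real.tendsto_pow_mul_exp_neg_atTop_nhds_zero 1
        have h' : Tendsto (fun s : ℝ => (x * s) ^ 1 * Real.exp (-(x * s))) atTop (𝓝 0) :=
          h.comp (tendsto_id.const_mul_atTop hx)
        have h'' := h'.const_mul (M / x / x)
        rw [mul_zero] at h''
        refine h''.congr fun s => ?_
        have : -(x * s) = -x * s := by ring
        rw [this]
        field_simp
      exact squeeze_zero_norm' hb ht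
  have hC : ∫ s in Ioi (2 : ℝ), Real.exp (-x * s) * (s * P s) =
      Real.exp (-x * 2) / x + Real.exp (-x) / x * Lap P x := by
    have hint2 : IntegrableOn (fun s => Real.exp (-x * s) / x * P (s - 1)) (Ioi 2) := by
      refine (((int_exp hx 2).1.div_const x).const_mul M).mono' ?_ ?_
      · exact (Continuous.aestronglyMeasurable (by fun_prop)).mul
          ((hcon.mono Ioi_subset_Ici_self).aestronglyMeasurable measurableSet_Ioi)
      · refine (ae_restrict_iff' measurableSet_Ioi).2 (Eventually.of_forall fun s hs => ?_)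
        have hs2 : (2 : ℝ) < s := hs
        rw [norm_mul, norm_div, Real.norm_eq_abs, Real.norm_eq_abs, Real.norm_eq_abs,
          abs_of_pos (Real.exp_pos _), abs_of_pos hx, mul_comm]
        exact mul_le_mul_of_nonneg_right (hM _ (by linarith)) (by positivity)
    rw [integral_sub (hint.mono_set (Ioi_subset_Ioi (by norm_num))) hint2] at hB
    have hshift : ∫ s in Ioi (2 : ℝ), Real.exp (-x * s) / x * P (s - 1) =
        Real.exp (-x) / x * Lap P x := by
      have e := (measurePreserving_add_right volume (-1 : ℝ)).setIntegral_preimage_emb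
        (MeasurableEquiv.addRight (-1 : ℝ)).measurableEmbedding
        (fun s => Real.exp (-x * (s + 1)) / x * P s) (Ioi 1)
      have hpre : (fun x : ℝ => x + -1) ⁻¹' Ioi 1 = Ioi 2 := by
        ext s
        simp only [mem_preimage, mem_Ioi]
        constructor <;> intro h <;> linarith
      rw [hpre] at e
      have e' : ∫ s in Ioi (2 : ℝ), Real.exp (-x * s) / x * P (s - 1) =
          ∫ s in Ioi (1 : ℝ), Real.exp (-x * (s + 1)) / x * P s := by
        rw [← e]
        refine integral_congr_ae (Eventually.of_forall fun s => ?_)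
        simp only
        congr 3
        ring
      rw [e', Lap, ← integral_const_mul]
      refine integral_congr_ae (Eventually.of_forall fun s => ?_)
      simp only
      rw [show -x * (s + 1) = -x + -x * s by ring, Real.exp_add]
      ring
    linarith
  rw [hsplit, hA, hC]
  ring

end

/-! ### The exponential integral -/

theorem int_logexp : IntegrableOn (fun t : ℝ => Real.log t * Real.exp (-t)) (Ioi 0) := by
  have hu : Ioc (0 : ℝ) 1 ∪ Ioi 1 = Ioi 0 := Ioc_union_Ioi_eq_Ioi (by norm_num)
  rw [← hu]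
  refine IntegrableOn.union ?_ ?_
  · have h := (intervalIntegral.intervalIntegrable_log' (a := (0 : ℝ)) (b := 1))
    rw [intervalIntegrable_iff_integrableOn_Ioc_of_le (by norm_num)] at h
    refine h.norm.mono' ?_ ?_
    · exact h.1.mul (Continuous.aestronglyMeasurable (by fun_prop))
    · refine (ae_restrict_iff' measurableSet_Ioc).2 (Eventually.of_forall fun t ht => ?_)
      rw [norm_mul, Real.norm_eq_abs (Real.exp (-t)), abs_of_pos (Real.exp_pos _)]
      have : Real.exp (-t) ≤ 1 := Real.exp_le_one_iff.2 (by linarith [ht.1])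
      exact mul_le_of_le_one_right (norm_nonneg _) this
  · have h := int_sexp (x := 1) one_pos (a := 1) (by norm_num)
    refine h.mono' ?_ ?_
    · refine AEStronglyMeasurable.mul ?_ (Continuous.aestronglyMeasurable (by fun_prop))
      exact Real.measurable_log.aestronglyMeasurable
    · refine (ae_restrict_iff' measurableSet_Ioi).2 (Eventually.of_forall fun t ht => ?_)
      have ht1 : (1 : ℝ) < t := ht
      rw [norm_mul, Real.norm_eq_abs, Real.norm_eq_abs, abs_of_pos (Real.exp_pos _),
        abs_of_nonneg (Real.log_nonneg ht1.le)]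
      have h1 : Real.log t ≤ t := (Real.log_le_sub_one_of_pos (by linarith)).trans (by linarith)
      have : -1 * t = -t := by ring
      rw [this]
      exact mul_le_mul_of_nonneg_right h1 (Real.exp_pos _).le

theorem gamma_eq : ∫ t in Ioi (0 : ℝ), Real.log t * Real.exp (-t) =
    -Real.eulerMascheroniConstant := by
  have h := Complex.hasDerivAt_GammaIntegral (s := 1) (by norm_num)
  have h' : HasDerivAt Complex.Gamma (∫ t : ℝ in Ioi 0, (t : ℂ) ^ ((1 : ℂ) - 1) *
      (Real.log t * Real.exp (-t))) 1 := by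
    refine h.congr_of_eventuallyEq ?_
    have : ∀ᶠ s in 𝓝 (1 : ℂ), 0 < s.re := by
      have hcr : Continuous Complex.re := Complex.continuous_re
      exact (isOpen_Ioi.preimage hcr).mem_nhds (by simp)
    filter_upwards [this] with s hs
    exact Complex.Gamma_eq_integral hs
  have h2 : (∫ t : ℝ in Ioi 0, (t : ℂ) ^ ((1 : ℂ) - 1) * (Real.log t * Real.exp (-t))) =
      ((∫ t in Ioi (0 : ℝ), Real.log t * Real.exp (-t) : ℝ) : ℂ) := by
    refine Eq.trans ?_ (integral_ofReal (𝕜 := ℂ) (μ := volume.restrict (Ioi (0 : ℝ)))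
      (f := fun t : ℝ => Real.log t * Real.exp (-t)))
    refine integral_congr_ae (Eventually.of_forall fun t => ?_)
    simp
  rw [h2] at h'
  have h3 : HasDerivAt (fun x : ℝ => (Complex.Gamma x).re)
      ((∫ t in Ioi (0 : ℝ), Real.log t * Real.exp (-t) : ℝ) : ℂ).re 1 := by
    have := HasDerivAt.real_of_complex (z := (1 : ℝ)) (e := Complex.Gamma)
      (e' := ((∫ t in Ioi (0 : ℝ), Real.log t * Real.exp (-t) : ℝ) : ℂ)) (by simpa using h')
    exact this
  rw [Complex.ofReal_re] at h3
  have h4 : HasDerivAt Real.Gamma (∫ t in Ioi (0 : ℝ), Real.log t * Real.exp (-t)) 1 := h3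
  rw [Real.eulerMascheroniConstant_eq_neg_deriv, h4.deriv, neg_neg]

/-- The exponential integral, after integration by parts. -/
noncomputable def K (x : ℝ) : ℝ :=
  -(Real.exp (-x) * Real.log x) + ((∫ t in Ioi (1 : ℝ), Real.log t * Real.exp (-t)) -
    ∫ t in (1 : ℝ)..x, Real.log t * Real.exp (-t))

theorem hasDerivAt_K {x : ℝ} (hx : 0 < x) : HasDerivAt K (-(Real.exp (-x) / x)) x := by
  have hc : ContinuousOn (fun t : ℝ => Real.log t * Real.exp (-t)) (Ioi 0) := by
    refine ContinuousOn.mul (Real.continuousOn_log.mono fun t ht => ?_) (by fun_prop)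
    exact ne_of_gt ht
  have hii : IntervalIntegrable (fun t : ℝ => Real.log t * Real.exp (-t)) volume 1 x := by
    refine (hc.mono fun t ht => ?_).intervalIntegrable
    have : min 1 x ≤ t := ht.1
    exact lt_of_lt_of_le (lt_min one_pos hx) this
  have h1 := intervalIntegral.integral_hasDerivAt_right hii
    (hc.stronglyMeasurableAtFilter isOpen_Ioi x hx) (hc.continuousAt (Ioi_mem_nhds hx))
  have h2 : HasDerivAt (fun x : ℝ => -(Real.exp (-x) * Real.log x))
      (Real.exp (-x) * Real.log x - Real.exp (-x) / x) x := by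
    have := (((hasDerivAt_id x).neg.exp).mul (Real.hasDerivAt_log hx.ne')).neg
    refine this.congr_deriv ?_
    simp
    field_simp
    ring
  refine (h2.add (h1.const_sub _)).congr_deriv ?_
  ring

theorem K_atTop : Tendsto K atTop (𝓝 0) := by
  have h1 : Tendsto (fun x : ℝ => -(Real.exp (-x) * Real.log x)) atTop (𝓝 0) := by
    have h := Real.tendsto_pow_mul_exp_neg_atTop_nhds_zero 1
    have : Tendsto (fun x : ℝ => Real.exp (-x) * Real.log x) atTop (𝓝 0) := by
      refine squeeze_zero_norm' ?_ h
      filter_upwards [eventually_ge_atTop 1] with t ht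
      rw [norm_mul, Real.norm_eq_abs, Real.norm_eq_abs, abs_of_pos (Real.exp_pos _),
        abs_of_nonneg (Real.log_nonneg ht), pow_one, mul_comm]
      have h1 : Real.log t ≤ t := (Real.log_le_sub_one_of_pos (by linarith)).trans (by linarith)
      exact mul_le_mul_of_nonneg_right h1 (Real.exp_pos _).le
    simpa using this.neg
  have h2 := intervalIntegral_tendsto_integral_Ioi (μ := volume)
    (f := fun t : ℝ => Real.log t * Real.exp (-t)) 1
    (int_logexp.mono_set (Ioi_subset_Ioi zero_le_one)) tendsto_id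
  have h3 := h1.add (h2.const_sub (∫ t in Ioi (1 : ℝ), Real.log t * Real.exp (-t)))
  rw [sub_self, add_zero] at h3
  exact h3

theorem K_zero : Tendsto (fun x => K x + Real.log x) (𝓝[>] 0)
    (𝓝 (-Real.eulerMascheroniConstant)) := by
  have h1 : Tendsto (fun x : ℝ => (1 - Real.exp (-x)) * Real.log x) (𝓝[>] 0) (𝓝 0) := by
    have hl : Tendsto (fun x : ℝ => Real.log x * x) (𝓝[>] 0) (𝓝 0) := by
      have := Real.continuous_mul_log.tendsto 0
      simp only [Real.log_zero, mul_zero] at this
      refine (this.mono_left nhdsWithin_le_nhds).congr fun x => ?_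
      ring
    refine squeeze_zero_norm' ?_ (tendsto_zero_iff_norm_tendsto_zero.1 hl)
    filter_upwards [self_mem_nhdsWithin] with x hx
    have hx0 : (0 : ℝ) < x := hx
    rw [norm_mul, norm_mul, Real.norm_eq_abs x, abs_of_pos hx0, mul_comm]
    refine mul_le_mul_of_nonneg_left ?_ (norm_nonneg _)
    have h1 : Real.exp (-x) ≤ 1 := Real.exp_le_one_iff.2 (by linarith)
    have h2 := Real.add_one_le_exp (-x)
    rw [Real.norm_eq_abs, abs_of_nonneg (by linarith)]
    linarith
  have hint : IntervalIntegrable (fun t : ℝ => Real.log t * Real.exp (-t)) volume 0 1 := by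
    rw [intervalIntegrable_iff_integrableOn_Ioc_of_le (by norm_num)]
    exact int_logexp.mono_set Ioc_subset_Ioi_self
  have h2 : Tendsto (fun x : ℝ => ∫ t in (1 : ℝ)..x, Real.log t * Real.exp (-t)) (𝓝[>] 0)
      (𝓝 (∫ t in (1 : ℝ)..0, Real.log t * Real.exp (-t))) := by
    have hc := intervalIntegral.continuousOn_primitive_interval' (μ := volume)
      (f := fun t : ℝ => Real.log t * Real.exp (-t)) (b₁ := 0) (b₂ := 1) (a := 1)
      hint (by simp)
    have h0 := hc 0 (by simp)
    refine h0.mono_left ?_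
    rw [uIcc_of_le (by norm_num : (0 : ℝ) ≤ 1)]
    rw [← nhdsWithin_Ioc_eq_nhdsGT (by norm_num : (0 : ℝ) < 1)]
    exact nhdsWithin_mono _ Ioc_subset_Icc_self
  have h3 : (∫ t in Ioi (1 : ℝ), Real.log t * Real.exp (-t)) -
      ∫ t in (1 : ℝ)..0, Real.log t * Real.exp (-t) = -Real.eulerMascheroniConstant := by
    rw [← gamma_eq, intervalIntegral.integral_symm, sub_neg_eq_add,
      intervalIntegral.integral_of_le (by norm_num), ← Ioc_union_Ioi_eq_Ioi zero_le_one,
      setIntegral_union (Ioc_disjoint_Ioi le_rfl) measurableSet_Ioi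
        (int_logexp.mono_set Ioc_subset_Ioi_self)
        (int_logexp.mono_set (Ioi_subset_Ioi zero_le_one)), add_comm]
  have h4 := h1.add (h2.const_sub (∫ t in Ioi (1 : ℝ), Real.log t * Real.exp (-t)))
  rw [h3, zero_add] at h4
  refine h4.congr fun x => ?_
  simp only [K]
  ring

/-- **The theorem.** -/
theorem t : ∀ (P : ℝ → ℝ) (ℓ : ℝ), ContinuousOn P (Set.Ici 1) →
    (∀ s : ℝ, 1 ≤ s → s ≤ 2 → s * P s = 1) →
    (∀ s : ℝ, 2 ≤ s → s * P s = 1 + ∫ x in (2 : ℝ)..s, P (x - 1)) →
    Tendsto P atTop (nhds ℓ) → ℓ = Real.exp (-Real.eulerMascheroniConstant) := by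
  intro P ℓ hc h1 h2 hl
  obtain ⟨M, hM0, hM⟩ := bdd hc hl
  -- the quotient is constant
  have hQ : ∀ x : ℝ, 0 < x → HasDerivAt (fun x => (1 + Lap P x) * Real.exp (-K x)) 0 x := by
    intro x hx
    have hL := (hasDerivAt_Lap hc hM hx).const_add 1
    rw [Lap_eq hc hM h1 h2 hx] at hL
    refine (hL.mul (hasDerivAt_K hx).neg.exp).congr_deriv ?_
    ring
  have hconst : ∀ x y : ℝ, 0 < x → 0 < y →
      (1 + Lap P x) * Real.exp (-K x) = (1 + Lap P y) * Real.exp (-K y) := by
    intro x y hx hy
    have := (convex_Ioi (0 : ℝ)).is_const_of_fderivWithin_eq_zero (𝕜 := ℝ)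
      (f := fun x => (1 + Lap P x) * Real.exp (-K x))
      (fun z hz => (hQ z hz).differentiableAt.differentiableWithinAt)
      (fun z hz => by
        have h := (hQ z hz).hasFDerivAt.hasFDerivWithinAt (s := Ioi 0)
        rw [h.fderivWithin (isOpen_Ioi.uniqueDiffWithinAt hz)]
        ext
        simp) hx hy
    exact this
  -- the limit at infinity
  have hLinf : Tendsto (Lap P) atTop (𝓝 0) := by
    have hb : ∀ᶠ x : ℝ in atTop, ‖Lap P x‖ ≤ M * Real.exp (-x) := by
      filter_upwards [eventually_ge_atTop 1] with x hx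
      have hx0 : 0 < x := by linarith
      have h := norm_integral_le_of_norm_le (μ := volume.restrict (Ioi (1 : ℝ)))
        (f := fun s : ℝ => Real.exp (-x * s) * P s)
        ((int_exp hx0 1).1.const_mul M) ((ae_restrict_iff' measurableSet_Ioi).2
          (Eventually.of_forall fun s hs => by
            rw [norm_mul, Real.norm_eq_abs, Real.norm_eq_abs, abs_of_pos (Real.exp_pos _), mul_comm]
            exact mul_le_mul_of_nonneg_right (hM s (le_of_lt hs)) (Real.exp_pos _).le))
      rw [integral_const_mul, (int_exp hx0 1).2, mul_one] at h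
      refine h.trans (mul_le_mul_of_nonneg_left ?_ hM0.le)
      exact div_le_self (Real.exp_pos _).le hx
    have ht : Tendsto (fun x : ℝ => M * Real.exp (-x)) atTop (𝓝 0) := by
      simpa using (Real.tendsto_exp_neg_atTop_nhds_zero).const_mul M
    exact squeeze_zero_norm' hb ht
  have hlim1 : Tendsto (fun x => (1 + Lap P x) * Real.exp (-K x)) atTop (𝓝 1) := by
    have := (hLinf.const_add 1).mul ((Real.continuous_exp.tendsto _).comp K_atTop.neg)
    simpa using this
  have hone : ∀ x : ℝ, 0 < x → (1 + Lap P x) * Real.exp (-K x) = 1 := by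
    intro x hx
    have : Tendsto (fun y => (1 + Lap P y) * Real.exp (-K y)) atTop
        (𝓝 ((1 + Lap P x) * Real.exp (-K x))) := by
      refine tendsto_const_nhds.congr' ?_
      filter_upwards [eventually_gt_atTop 0] with y hy
      exact hconst x y hx hy
    exact tendsto_nhds_unique this hlim1
  -- the limit at zero
  have hlim2 : Tendsto (fun x => x * (1 + Lap P x)) (𝓝[>] 0)
      (𝓝 (Real.exp (-Real.eulerMascheroniConstant))) := by
    have := (Real.continuous_exp.tendsto _).comp K_zero
    refine this.congr' ?_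
    filter_upwards [self_mem_nhdsWithin] with x hx
    have hx0 : (0 : ℝ) < x := hx
    simp only [Function.comp]
    rw [Real.exp_add, Real.exp_log hx0]
    have h := hone x hx0
    rw [Real.exp_neg] at h
    have : 1 + Lap P x = Real.exp (K x) := by
      field_simp at h
      linarith
    rw [this]
    ring
  -- the Abelian step
  have hlim3 : Tendsto (fun x => x * (1 + Lap P x)) (𝓝[>] 0) (𝓝 ℓ) := by
    rw [Metric.tendsto_nhdsWithin_nhds]
    intro ε hε
    obtain ⟨S, hS⟩ := Metric.tendsto_atTop.1 hl (ε / 4) (by positivity)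
    set S' : ℝ := max S 1 with hS'
    have hS1 : 1 ≤ S' := le_max_right _ _
    refine ⟨min 1 (ε / (4 * (1 + |ℓ| + (S' * (M + |ℓ|)))) ), by positivity, fun {x} hx hd => ?_⟩
    have hx0 : (0 : ℝ) < x := hx
    rw [Real.dist_eq, sub_zero, abs_of_pos hx0] at hd
    have hx1 : x < 1 := hd.trans_le (min_le_left _ _)
    have hx2 := hd.trans_le (min_le_right _ _)
    -- the bound of the difference
    have hint : IntegrableOn (fun s : ℝ => Real.exp (-x * s) * (P s - ℓ)) (Ioi 1) := by
      have := (intL hc hM hx0).sub ((int_exp hx0 1).1.mul_const ℓ)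
      refine this.congr_fun (fun s _ => ?_) measurableSet_Ioi
      simp only [Pi.sub_apply]
      ring
    have e1 : ∫ s in Ioi (1 : ℝ), Real.exp (-x * s) * (P s - ℓ) =
        Lap P x - Real.exp (-x) / x * ℓ := by
      have h1 := (int_exp hx0 1).2
      rw [mul_one] at h1
      rw [Lap, ← h1, ← integral_mul_const, ← integral_sub (intL hc hM hx0)
        ((int_exp hx0 1).1.mul_const ℓ)]
      refine integral_congr_ae (Eventually.of_forall fun s => ?_)
      simp only
      ring
    have e2 : |∫ s in Ioi (1 : ℝ), Real.exp (-x * s) * (P s - ℓ)| ≤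
        S' * (M + |ℓ|) + ε / 4 / x := by
      have hsp : ∫ s in Ioi (1 : ℝ), Real.exp (-x * s) * (P s - ℓ) =
          (∫ s in Ioc (1 : ℝ) S', Real.exp (-x * s) * (P s - ℓ)) +
            ∫ s in Ioi S', Real.exp (-x * s) * (P s - ℓ) := by
        rw [← setIntegral_union (Ioc_disjoint_Ioi le_rfl) measurableSet_Ioi
          (hint.mono_set Ioc_subset_Ioi_self) (hint.mono_set (Ioi_subset_Ioi hS1)),
          Ioc_union_Ioi_eq_Ioi hS1]
      have b1 : |∫ s in Ioc (1 : ℝ) S', Real.exp (-x * s) * (P s - ℓ)| ≤ S' * (M + |ℓ|) := by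
        have := norm_setIntegral_le_of_norm_le_const (μ := volume) (s := Ioc (1 : ℝ) S')
          (C := M + |ℓ|) (f := fun s => Real.exp (-x * s) * (P s - ℓ)) (by simp) (fun s hs => by
            rw [norm_mul, Real.norm_eq_abs, Real.norm_eq_abs, abs_of_pos (Real.exp_pos _)]
            have h1 : Real.exp (-x * s) ≤ 1 := by
              apply Real.exp_le_one_iff.2
              nlinarith [hs.1]
            have h2 : |P s - ℓ| ≤ M + |ℓ| := (abs_sub _ _).trans (by linarith [hM s hs.1.le])
            calc Real.exp (-x * s) * |P s - ℓ| ≤ 1 * (M + |ℓ|) :=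
                  mul_le_mul h1 h2 (abs_nonneg _) zero_le_one
              _ = M + |ℓ| := one_mul _)
        rw [Real.norm_eq_abs] at this
        refine this.trans ?_
        rw [Real.volume_real_Ioc_of_le hS1]
        nlinarith [abs_nonneg ℓ]
      have b2 : |∫ s in Ioi S', Real.exp (-x * s) * (P s - ℓ)| ≤ ε / 4 / x := by
        have h := norm_integral_le_of_norm_le (μ := volume.restrict (Ioi S'))
          (f := fun s : ℝ => Real.exp (-x * s) * (P s - ℓ))
          ((int_exp hx0 S').1.const_mul (ε / 4)) ((ae_restrict_iff' measurableSet_Ioi).2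
            (Eventually.of_forall fun s hs => by
              rw [norm_mul, Real.norm_eq_abs, Real.norm_eq_abs, abs_of_pos (Real.exp_pos _),
                mul_comm]
              have hs' : S ≤ s := (le_max_left _ _).trans (le_of_lt hs)
              have := hS s hs'
              rw [Real.dist_eq] at this
              exact mul_le_mul_of_nonneg_right this.le (Real.exp_pos _).le))
        rw [integral_const_mul, (int_exp hx0 S').2, Real.norm_eq_abs] at h
        refine h.trans ?_
        rw [mul_div_assoc']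
        gcongr
        have : Real.exp (-x * S') ≤ 1 := by
          apply Real.exp_le_one_iff.2
          nlinarith
        have h4 : 0 < ε / 4 := by positivity
        nlinarith
      rw [hsp]
      exact (abs_add_le _ _).trans (add_le_add b1 b2)
    rw [e1] at e2
    have e3 : x * (1 + Lap P x) - ℓ = x * (Lap P x - Real.exp (-x) / x * ℓ) + x +
        (Real.exp (-x) - 1) * ℓ := by
      field_simp
      ring
    have e4 : |Real.exp (-x) - 1| ≤ x := by
      have h1 : Real.exp (-x) ≤ 1 := Real.exp_le_one_iff.2 (by linarith)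
      have h2 := Real.add_one_le_exp (-x)
      rw [abs_le]
      constructor <;> linarith
    have e5 : |x * (Lap P x - Real.exp (-x) / x * ℓ)| ≤ x * (S' * (M + |ℓ|)) + ε / 4 := by
      rw [abs_mul, abs_of_pos hx0]
      calc x * |Lap P x - Real.exp (-x) / x * ℓ| ≤ x * (S' * (M + |ℓ|) + ε / 4 / x) :=
            mul_le_mul_of_nonneg_left e2 hx0.le
        _ = x * (S' * (M + |ℓ|)) + ε / 4 := by field_simp
    have e6 : |(Real.exp (-x) - 1) * ℓ| ≤ x * |ℓ| := by
      rw [abs_mul]
      exact mul_le_mul_of_nonneg_right e4 (abs_nonneg _)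
    have e7 : x * (1 + |ℓ| + S' * (M + |ℓ|)) < ε / 4 := by
      have hpos : 0 < 1 + |ℓ| + S' * (M + |ℓ|) := by positivity
      have : x < ε / 4 / (1 + |ℓ| + S' * (M + |ℓ|)) := by
        rw [div_div]
        exact hx2
      rwa [lt_div_iff₀ hpos] at this
    rw [Real.dist_eq, e3]
    calc |x * (Lap P x - Real.exp (-x) / x * ℓ) + x + (Real.exp (-x) - 1) * ℓ|
        ≤ |x * (Lap P x - Real.exp (-x) / x * ℓ)| + |x| + |(Real.exp (-x) - 1) * ℓ| :=
          (abs_add_le _ _).trans (add_le_add (abs_add_le _ _) le_rfl)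
      _ ≤ (x * (S' * (M + |ℓ|)) + ε / 4) + x + x * |ℓ| := by
          rw [abs_of_pos hx0]
          linarith
      _ < ε := by nlinarith
  exact tendsto_nhds_unique hlim3 hlim2

end Pool.Agent.H50.LS.Buch
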