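import Pool.Agent.H50.G.S.W23.DC.Defs

/-! The functions of the linear sieve tend to one; their constant.
Copy of the library file `Pool/Graph/R_seed8/Y882/JR/Lim.lean`. -/

set_option autoImplicit false

namespace Pool.Agent.H50.LS.Lim

open Filter Finset
open Pool.Agent.W23.DC

/-- the limit of a function satisfying the equation of Buchstab -/
def S_BUCH : Prop :=
  ∀ (P : ℝ → ℝ) (ℓ : ℝ), ContinuousOn P (Set.Ici 1) →
    (∀ s : ℝ, 1 ≤ s → s ≤ 2 → s * P s = 1) →
    (∀ s : ℝ, 2 ≤ s → s * P s = 1 + ∫ x in (2 : ℝ)..s, P (x - 1)) →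
    Tendsto P atTop (nhds ℓ) → ℓ = Real.exp (-Real.eulerMascheroniConstant)

theorem cF_sh {F : ℝ → ℝ} (hF : ContinuousOn F (Set.Ici 1)) {a b : ℝ} (ha : 2 ≤ a) (hb : 2 ≤ b) :
    IntervalIntegrable (fun x => F (x - 1)) MeasureTheory.volume a b := by
  apply ContinuousOn.intervalIntegrable
  apply hF.comp (continuousOn_id.sub continuousOn_const)
  intro x hx
  have h1 : min a b ≤ x := hx.1
  have h2 : 2 ≤ min a b := le_min ha hb
  show (1 : ℝ) ≤ x - 1
  linarith

/-- `s (F + f)` -/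
theorem sum_eq {A0 : ℝ} {F f : ℝ → ℝ} (h : SF A0 F f) (s : ℝ) (hs : 2 ≤ s) :
    s * F s = A0 + ∫ x in (2 : ℝ)..s, f (x - 1) := by
  have h0 : ∀ t : ℝ, 2 ≤ t → t ≤ 3 → ∫ x in (2 : ℝ)..t, f (x - 1) = 0 := by
    intro t ht ht3
    have h1 : ∫ x in (2 : ℝ)..t, f (x - 1) = ∫ x in (2 : ℝ)..t, (0 : ℝ) := by
      apply intervalIntegral.integral_congr
      intro x hx
      rw [Set.uIcc_of_le ht] at hx
      exact h.f2 (x - 1) (by linarith [hx.1]) (by linarith [hx.2])
    rw [h1]
    simp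
  rcases le_total s 3 with h3 | h3
  · rw [h0 s hs h3, h.F3 s (by linarith) h3, add_zero]
    field_simp
  · rw [h.eF s h3, ← intervalIntegral.integral_add_adjacent_intervals (a := 2) (b := 3) (c := s)
      (cF_sh h.cf le_rfl (by norm_num)) (cF_sh h.cf (by norm_num) hs), h0 3 (by norm_num) le_rfl,
      zero_add]

theorem diff_le {A0 : ℝ} {F f : ℝ → ℝ} (h : SF A0 F f) (s : ℝ) (hs : 2 ≤ s) :
    F s - f s ≤ A0 / s := by
  have h1 := sum_eq h s hs
  have h2 := h.ef s hs
  have h3 : ∫ x in (2 : ℝ)..s, f (x - 1) ≤ ∫ x in (2 : ℝ)..s, F (x - 1) := by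
    apply intervalIntegral.integral_mono_on hs (cF_sh h.cf le_rfl hs) (cF_sh h.cF le_rfl hs)
    intro x hx
    have h4 := h.F1 (x - 1) (by linarith [hx.1])
    have h5 := h.f1 (x - 1) (by linarith [hx.1])
    linarith
  have hs0 : 0 < s := by linarith
  rw [le_div_iff₀ hs0]
  nlinarith

theorem F_lim {A0 : ℝ} {F f : ℝ → ℝ} (h : SF A0 F f) : Tendsto F atTop (nhds 1) := by
  have h1 : Tendsto (fun s : ℝ => 1 + A0 / s) atTop (nhds (1 + 0)) :=
    tendsto_const_nhds.add (tendsto_const_nhds.div_atTop tendsto_id)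
  rw [add_zero] at h1
  apply tendsto_of_tendsto_of_tendsto_of_le_of_le' tendsto_const_nhds h1
  · filter_upwards [eventually_ge_atTop 1] with s hs
    exact h.F1 s hs
  · filter_upwards [eventually_ge_atTop 2] with s hs
    have h2 := diff_le h s hs
    have h3 := h.f1 s (by linarith)
    linarith

theorem f_lim {A0 : ℝ} {F f : ℝ → ℝ} (h : SF A0 F f) : Tendsto f atTop (nhds 1) := by
  have h1 : Tendsto (fun s : ℝ => 1 - A0 / s) atTop (nhds (1 - 0)) :=
    tendsto_const_nhds.sub (tendsto_const_nhds.div_atTop tendsto_id)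
  rw [sub_zero] at h1
  apply tendsto_of_tendsto_of_tendsto_of_le_of_le' h1 tendsto_const_nhds
  · filter_upwards [eventually_ge_atTop 2] with s hs
    have h2 := diff_le h s hs
    have h3 := h.F1 s (by linarith)
    linarith
  · filter_upwards [eventually_ge_atTop 1] with s hs
    exact h.f1 s hs

theorem A0_eq (hB : S_BUCH) {A0 : ℝ} {F f : ℝ → ℝ} (h : SF A0 F f) :
    A0 = 2 * Real.exp Real.eulerMascheroniConstant := by
  have hA := h.pos
  have h1 := hB (fun s => (F s + f s) / A0) (2 / A0) ((h.cF.add h.cf).div_const A0) ?_ ?_ ?_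
  · rw [Real.exp_neg, div_eq_iff hA.ne'] at h1
    rw [inv_mul_eq_div, eq_div_iff (Real.exp_pos _).ne'] at h1
    exact h1.symm
  · intro s hs1 hs2
    show s * ((F s + f s) / A0) = 1
    rw [h.f2 s hs1 hs2, h.F3 s hs1 (by linarith)]
    have : s ≠ 0 := by linarith
    field_simp
    ring
  · intro s hs
    show s * ((F s + f s) / A0) = 1 + ∫ x in (2 : ℝ)..s, (F (x - 1) + f (x - 1)) / A0
    rw [intervalIntegral.integral_div, intervalIntegral.integral_add (cF_sh h.cF le_rfl hs)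
      (cF_sh h.cf le_rfl hs), ← h.ef s hs]
    have h2 := sum_eq h s hs
    have h3 : ∫ x in (2 : ℝ)..s, f (x - 1) = s * F s - A0 := by linarith
    rw [h3]
    field_simp
    ring
  · have h2 := ((F_lim h).add (f_lim h)).div_const A0
    norm_num at h2
    exact h2

end Pool.Agent.H50.LS.Lim
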