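import Pool.Agent.H50.LS.Stm
import Pool.Agent.H50.LS.Buch
import Pool.Agent.H50.LS.Lim

/-! # LS-AZ: the constant of the linear sieve (helper48; from library files) -/

set_option autoImplicit false

namespace Pool.Agent.H50.LS

theorem az : S_AZ := by
  intro A0 F f h
  exact Lim.A0_eq Buch.t h

end Pool.Agent.H50.LS
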