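import Pool.Agent.H50.LS.Stm

set_option autoImplicit false

open Finset Filter Topology

namespace Pool.Agent.H50.LS

open Pool.Agent.W23.DC Pool.Agent.Y829 Pool.Agent.H50.BF

open Classical in
theorem cls_core (z0 N w t U : ℕ) (P : Finset ℕ) (hP : ∀ p ∈ P, p.Prime ∧ z0 < p) (B : ℝ)
    (hB : ∀ n0 : ℕ, B ≤ (((Ioc n0 (n0 + N)).filter (fun n => ∀ p ∈ P, ¬ p ∣ n)).card : ℝ))
    (hw : ∀ p : ℕ, p.Prime → z0 < p → p ≤ w → p ∈ P) (hU : primorial z0 * (N + 1) ≤ U + 1) :
    (Nat.totient (primorial z0) : ℝ) * B ≤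
      (((range U).filter (fun k => ∀ p : ℕ, p.Prime → p ≤ w →
        (t + k + 1) % p ≠ 0 % p)).card : ℝ) := by
  obtain ⟨q, hq⟩ : ∃ q, q = primorial z0 := ⟨_, rfl⟩
  rw [← hq] at hU ⊢
  have hq0 : 0 < q := by rw [hq]; exact primorial_pos _
  have hdvd : ∀ p : ℕ, p.Prime → p ≤ z0 → p ∣ q := by
    intro p hp hz
    rw [hq]
    unfold primorial
    exact Finset.dvd_prod_of_mem (fun p => p)
      (Finset.mem_filter.2 ⟨Finset.mem_range.2 (by omega), hp⟩)
  have hcop : ∀ p ∈ P, Nat.Coprime q p := by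
    intro p hp
    obtain ⟨h1, h2⟩ := hP p hp
    refine Nat.Coprime.symm ?_
    rw [Nat.Prime.coprime_iff_not_dvd h1]
    intro h3
    rw [hq] at h3
    unfold primorial at h3
    obtain ⟨r, hr, hpr⟩ := (Prime.dvd_finsetProd_iff h1.prime _).1 h3
    rw [Finset.mem_filter, Finset.mem_range] at hr
    have := (Nat.prime_dvd_prime_iff_eq h1 hr.2).1 hpr
    omega
  have hQ : Nat.Coprime q (∏ p ∈ P, p) := Nat.Coprime.prod_right hcop
  have hu : ∀ r : ℕ, ∃ u : ℕ, ∀ p ∈ P, ∀ m : ℕ, p ∣ q * m + r → p ∣ m + u := by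
    intro r
    obtain ⟨k, hk1, hk2⟩ := Nat.chineseRemainder hQ 0 r
    obtain ⟨u, rfl⟩ := (Nat.modEq_zero_iff_dvd).1 hk1
    refine ⟨u, fun p hp m h => ?_⟩
    have h1 : q * u ≡ r [MOD p] := hk2.of_dvd (Finset.dvd_prod_of_mem (fun p => p) hp)
    have h2 : q * (m + u) ≡ q * m + r [MOD p] := by
      rw [mul_add]
      exact Nat.ModEq.add_left _ h1
    have h3 : p ∣ q * (m + u) :=
      (Nat.modEq_zero_iff_dvd).1 (h2.trans ((Nat.modEq_zero_iff_dvd).2 h))
    exact Nat.Coprime.dvd_of_dvd_mul_left (hcop p hp).symm h3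
  choose u hu using hu
  obtain ⟨a, ha⟩ : ∃ a, a = t / q := ⟨_, rfl⟩
  have ha1 : t < q * (a + 1) := by rw [ha]; exact Nat.lt_mul_div_succ t hq0
  have ha2 : q * a ≤ t := by rw [ha]; exact Nat.mul_div_le t q
  obtain ⟨R, hR⟩ : ∃ R, R = (range q).filter (fun r => q.Coprime r) := ⟨_, rfl⟩
  have hRc : R.card = Nat.totient q := by
    rw [Nat.totient_eq_card_coprime q, hR]
  obtain ⟨M, hM⟩ : ∃ M : ℕ → Finset ℕ,
    M = fun r => (Ioc a (a + N)).filter (fun m => ∀ p ∈ P, ¬ p ∣ m + u r) := ⟨_, rfl⟩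
  have hMc : ∀ r, B ≤ ((M r).card : ℝ) := by
    intro r
    refine (hB (a + u r)).trans ?_
    have h1 : ((Ioc (a + u r) (a + u r + N)).filter (fun n => ∀ p ∈ P, ¬ p ∣ n)).card ≤
        (M r).card := by
      refine Finset.card_le_card_of_injOn (fun n => n - u r) ?_ ?_
      · intro n hn
        rw [Finset.mem_coe, Finset.mem_filter, Finset.mem_Ioc] at hn
        rw [hM, Finset.mem_coe, Finset.mem_filter, Finset.mem_Ioc]
        refine ⟨⟨by show a < n - u r; omega, by show n - u r ≤ a + N; omega⟩, ?_⟩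
        have h2 : n - u r + u r = n := by omega
        show ∀ p ∈ P, ¬ p ∣ n - u r + u r
        rw [h2]
        exact hn.2
      · intro n hn n' hn' h
        rw [Finset.mem_coe, Finset.mem_filter, Finset.mem_Ioc] at hn hn'
        simp only at h
        omega
    exact_mod_cast h1
  have hmain : (R.sigma fun r => M r).card ≤
      ((range U).filter (fun k => ∀ p : ℕ, p.Prime → p ≤ w → (t + k + 1) % p ≠ 0 % p)).card := by
    refine Finset.card_le_card_of_injOn (fun x : (Σ _ : ℕ, ℕ) => q * x.2 + x.1 - t - 1) ?_ ?_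
    · rintro ⟨r, m⟩ hx
      rw [Finset.mem_coe, Finset.mem_sigma] at hx
      obtain ⟨hr, hm⟩ := hx
      simp only at hr hm
      rw [hR, Finset.mem_filter, Finset.mem_range] at hr
      rw [hM, Finset.mem_filter, Finset.mem_Ioc] at hm
      have b1 : q * (a + 1) ≤ q * m := Nat.mul_le_mul_left q hm.1.1
      have b2 : q * m ≤ q * (a + N) := Nat.mul_le_mul_left q hm.1.2
      have b3 : q * (a + N) + q = q * a + q * (N + 1) := by ring
      rw [Finset.mem_coe, Finset.mem_filter, Finset.mem_range]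
      refine ⟨?_, ?_⟩
      · show q * m + r - t - 1 < U
        omega
      · intro p hp hpw
        show (t + (q * m + r - t - 1) + 1) % p ≠ 0 % p
        have b4 : t + (q * m + r - t - 1) + 1 = q * m + r := by omega
        rw [b4, Nat.zero_mod]
        intro h
        have h1 : p ∣ q * m + r := Nat.dvd_of_mod_eq_zero h
        rcases le_or_gt p z0 with hz | hz
        · have h2 := hdvd p hp hz
          have h3 : p ∣ r := (Nat.dvd_add_right (h2.mul_right m)).1 h1
          have h4 := Nat.dvd_gcd h2 h3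
          rw [hr.2] at h4
          exact hp.one_lt.ne' (Nat.dvd_one.1 h4)
        · exact hm.2 p (hw p hp hz hpw) (hu r p (hw p hp hz hpw) m h1)
    · rintro ⟨r, m⟩ hx ⟨r', m'⟩ hx' h
      rw [Finset.mem_coe, Finset.mem_sigma] at hx hx'
      obtain ⟨hr, hm⟩ := hx
      obtain ⟨hr', hm'⟩ := hx'
      simp only at hr hm hr' hm' h
      rw [hR, Finset.mem_filter, Finset.mem_range] at hr hr'
      rw [hM, Finset.mem_filter, Finset.mem_Ioc] at hm hm'
      have b1 : q * (a + 1) ≤ q * m := Nat.mul_le_mul_left q hm.1.1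
      have b1' : q * (a + 1) ≤ q * m' := Nat.mul_le_mul_left q hm'.1.1
      have b2 : q * m + r = q * m' + r' := by omega
      have b3 : r = r' := by
        have := congrArg (fun n => n % q) b2
        simpa [Nat.mul_add_mod, Nat.mod_eq_of_lt hr.1, Nat.mod_eq_of_lt hr'.1] using this
      subst b3
      have b4 : q * m = q * m' := by omega
      have b5 : m = m' := Nat.eq_of_mul_eq_mul_left hq0 b4
      subst b5
      rfl
  calc (Nat.totient q : ℝ) * B = ∑ _r ∈ R, B := by rw [Finset.sum_const, nsmul_eq_mul, hRc]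
    _ ≤ ∑ r ∈ R, ((M r).card : ℝ) := Finset.sum_le_sum fun r _ => hMc r
    _ = ((R.sigma fun r => M r).card : ℝ) := by rw [Finset.card_sigma]; push_cast; rfl
    _ ≤ _ := by exact_mod_cast hmain

/-- CLS -/
theorem cls : S_CLS := by
  intro z0 N w t U zeta B h1 h2 h3
  have h := cls_core z0 N w t U (Ps N z0 zeta)
    (fun p hp => ⟨(mem_Ps.1 hp).2.1, (mem_Ps.1 hp).2.2.1⟩) B (fun n0 => by convert h1 n0) h2 h3
  refine h.trans (le_of_eq ?_)
  unfold sv
  norm_cast

end Pool.Agent.H50.LS
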