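import Pool.Agent.H50.LS.StmU

set_option autoImplicit false

open Finset Filter Topology

namespace Pool.Agent.H50.LS

open Pool.Agent.W23.DC (SF)
open Pool.Agent.Y829 Pool.Agent.H50.BF

open Classical in
theorem clu_core (z0 N w t U : ℕ) (P : Finset ℕ) (hP : ∀ p ∈ P, p.Prime ∧ z0 < p) (B : ℝ)
    (hB : ∀ n0 : ℕ, (((Ioc n0 (n0 + N)).filter (fun n => ∀ p ∈ P, ¬ p ∣ n)).card : ℝ) ≤ B)
    (hw : ∀ p ∈ P, p ≤ w) (hz : z0 ≤ w) (hU : U / primorial z0 + 1 ≤ N) :
    (((range U).filter (fun k => ∀ p : ℕ, p.Prime → p ≤ w →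
        (t + k + 1) % p ≠ 0 % p)).card : ℝ) ≤ (Nat.totient (primorial z0) : ℝ) * B := by
  obtain ⟨q, hq⟩ : ∃ q, q = primorial z0 := ⟨_, rfl⟩
  rw [← hq] at hU ⊢
  have hq0 : 0 < q := by rw [hq]; exact primorial_pos _
  have hprime : ∀ p : ℕ, p.Prime → p ∣ q → p ≤ z0 := by
    intro p hp h3
    rw [hq] at h3
    unfold primorial at h3
    obtain ⟨r, hr, hpr⟩ := (Prime.dvd_finsetProd_iff hp.prime _).1 h3
    rw [Finset.mem_filter, Finset.mem_range] at hr
    have := (Nat.prime_dvd_prime_iff_eq hp hr.2).1 hpr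
    omega
  have hcop : ∀ p ∈ P, Nat.Coprime q p := by
    intro p hp
    obtain ⟨h1, h2⟩ := hP p hp
    refine Nat.Coprime.symm ?_
    rw [Nat.Prime.coprime_iff_not_dvd h1]
    intro h3
    have := hprime p h1 h3
    omega
  have hQ : Nat.Coprime q (∏ p ∈ P, p) := Nat.Coprime.prod_right hcop
  have hQ0 : 0 < ∏ p ∈ P, p := Finset.prod_pos fun p hp => (hP p hp).1.pos
  have hu : ∀ r : ℕ, ∃ u : ℕ, 1 ≤ u ∧ ∀ p ∈ P, ∀ m : ℕ, p ∣ m + u → p ∣ q * m + r := by
    intro r
    obtain ⟨k, hk1, hk2⟩ := Nat.chineseRemainder hQ 0 r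
    obtain ⟨u, rfl⟩ := (Nat.modEq_zero_iff_dvd).1 hk1
    refine ⟨u + ∏ p ∈ P, p, by omega, fun p hp m h => ?_⟩
    have hpQ : p ∣ ∏ p ∈ P, p := Finset.dvd_prod_of_mem (fun p => p) hp
    have h1 : q * u ≡ r [MOD p] := hk2.of_dvd hpQ
    have h2 : q * (m + u) ≡ q * m + r [MOD p] := by
      rw [mul_add]
      exact Nat.ModEq.add_left _ h1
    rw [← add_assoc] at h
    have h3 : p ∣ m + u := (Nat.dvd_add_left hpQ).1 h
    exact (Nat.modEq_zero_iff_dvd).1
      (h2.symm.trans ((Nat.modEq_zero_iff_dvd).2 (h3.mul_left q)))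
  choose u hu1 hu using hu
  obtain ⟨R, hR⟩ : ∃ R, R = (range q).filter (fun r => q.Coprime r) := ⟨_, rfl⟩
  have hRc : R.card = Nat.totient q := by
    rw [Nat.totient_eq_card_coprime q, hR]
  obtain ⟨S, hS⟩ : ∃ S, S = (range U).filter (fun k => ∀ p : ℕ, p.Prime → p ≤ w →
        (t + k + 1) % p ≠ 0 % p) := ⟨_, rfl⟩
  rw [← hS]
  have hmaps : Set.MapsTo (fun k => (t + k + 1) % q) (S : Set ℕ) (R : Set ℕ) := by
    intro k hk
    rw [Finset.mem_coe, hS, Finset.mem_filter, Finset.mem_range] at hk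
    rw [Finset.mem_coe, hR, Finset.mem_filter, Finset.mem_range]
    refine ⟨Nat.mod_lt _ hq0, ?_⟩
    refine Nat.Coprime.symm (Nat.Coprime.symm ?_)
    by_contra hcon
    obtain ⟨p, hp, hpq, hpr⟩ := Nat.Prime.not_coprime_iff_dvd.1 hcon
    have h1 : p ∣ t + k + 1 := by
      rw [← Nat.div_add_mod (t + k + 1) q]
      exact Dvd.dvd.add (hpq.mul_right _) hpr
    have h2 := hk.2 p hp ((hprime p hp hpq).trans hz)
    rw [Nat.zero_mod] at h2
    exact h2 (Nat.mod_eq_zero_of_dvd h1)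
  have hfib : ∀ r ∈ R, ((S.filter fun k => (t + k + 1) % q = r).card : ℝ) ≤ B := by
    intro r hr
    rw [hR, Finset.mem_filter, Finset.mem_range] at hr
    obtain ⟨m0, hm0⟩ : ∃ m0, m0 = (t + q - r) / q := ⟨_, rfl⟩
    have c1 : t + q - r < q * (m0 + 1) := by rw [hm0]; exact Nat.lt_mul_div_succ _ hq0
    have c2 : q * m0 ≤ t + q - r := by rw [hm0]; exact Nat.mul_div_le _ q
    have hr1 := hr.1
    refine le_trans ?_ (hB (m0 + u r - 1))
    have h1 : (S.filter fun k => (t + k + 1) % q = r).card ≤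
        ((Ioc (m0 + u r - 1) (m0 + u r - 1 + N)).filter (fun n => ∀ p ∈ P, ¬ p ∣ n)).card := by
      have hu1r := hu1 r
      refine Finset.card_le_card_of_injOn (fun k => (t + k + 1) / q + u r) ?_ ?_
      · intro k hk
        rw [Finset.mem_coe, Finset.mem_filter, hS, Finset.mem_filter, Finset.mem_range] at hk
        obtain ⟨⟨hkU, hkp⟩, hkr⟩ := hk
        have e1 : q * ((t + k + 1) / q) + r = t + k + 1 := by
          rw [← hkr]; exact Nat.div_add_mod _ _
        obtain ⟨m, hm⟩ : ∃ m, m = (t + k + 1) / q := ⟨_, rfl⟩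
        rw [← hm] at e1
        rw [Finset.mem_coe, Finset.mem_filter, Finset.mem_Ioc]
        show (m0 + u r - 1 < (t + k + 1) / q + u r ∧ (t + k + 1) / q + u r ≤ m0 + u r - 1 + N) ∧
          ∀ p ∈ P, ¬ p ∣ (t + k + 1) / q + u r
        rw [← hm]
        have d1 : m0 ≤ m := by
          by_contra hlt
          push Not at hlt
          have h2 : q * (m + 1) ≤ q * m0 := Nat.mul_le_mul_left q hlt
          rw [mul_add, mul_one] at h2
          omega
        have d2 : m < m0 + N := by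
          by_contra hge
          push Not at hge
          have h2 : q * (m0 + N) ≤ q * m := Nat.mul_le_mul_left q hge
          have h3 : q * (U / q + 1) ≤ q * N := Nat.mul_le_mul_left q hU
          have h4 : U < q * (U / q + 1) := Nat.lt_mul_div_succ _ hq0
          rw [mul_add] at h2 c1
          rw [mul_one] at c1
          omega
        refine ⟨⟨by omega, by omega⟩, fun p hp hpd => ?_⟩
        have h2 := hu r p hp m hpd
        rw [e1] at h2
        have h3 := hkp p (hP p hp).1 (hw p hp)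
        rw [Nat.zero_mod] at h3
        exact h3 (Nat.mod_eq_zero_of_dvd h2)
      · intro k hk k' hk' h
        rw [Finset.mem_coe, Finset.mem_filter] at hk hk'
        have h2 : (t + k + 1) / q = (t + k' + 1) / q := by
          have h3 : (t + k + 1) / q + u r = (t + k' + 1) / q + u r := h
          omega
        have e1 := Nat.div_add_mod (t + k + 1) q
        have e2 := Nat.div_add_mod (t + k' + 1) q
        rw [hk.2, h2] at e1
        rw [hk'.2] at e2
        omega
    exact_mod_cast h1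
  calc (S.card : ℝ) = ∑ r ∈ R, ((S.filter fun k => (t + k + 1) % q = r).card : ℝ) := by
        rw [Finset.card_eq_sum_card_fiberwise hmaps]
        push_cast
        rfl
    _ ≤ ∑ _r ∈ R, B := Finset.sum_le_sum hfib
    _ = (Nat.totient q : ℝ) * B := by rw [Finset.sum_const, nsmul_eq_mul, hRc]

/-- CLU -/
theorem clu : S_CLU := by
  intro z0 N w t U zeta B h1 h2 h3 h4
  have h := clu_core z0 N w t U (Ps N z0 zeta)
    (fun p hp => ⟨(mem_Ps.1 hp).2.1, (mem_Ps.1 hp).2.2.1⟩) B (fun n0 => by convert h1 n0) h2 h3 h4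
  refine le_trans (le_of_eq ?_) h
  unfold sv
  norm_cast

end Pool.Agent.H50.LS
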