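import Pool.Agent.H50.LS.Stm
import Pool.Agent.H50.LG.FING2

/-! FINB: the lower limit of the least densities is positive for `2 < s ≤ 4`. -/

set_option autoImplicit false

open Filter Topology
open scoped ENNReal

namespace Pool.Agent.H50.LS

open Pool.Agent.W23.DC (SF)
open Pool.Agent.H50.BF Pool.Agent.H50.CW Pool.Agent.H50.GW Pool.Agent.H50.LG

theorem finb (hJ : S_JRL) (hA : S_AZ) (α : ℝ) (h1 : 1 / 2 ≤ α) (h2 : α < 1) :
    ENNReal.ofReal (α * Real.exp Real.eulerMascheroniConstant * Real.log (2 / α - 1)) ≤ sl (2 / α) := by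
  have h0 : 0 < α := by linarith
  have hs : 2 < 2 / α := by rw [lt_div_iff₀ h0]; linarith
  have hs4 : 2 / α ≤ 4 := by rw [div_le_iff₀ h0]; linarith
  obtain ⟨A0, F, f, hSF⟩ := Pool.Agent.W366.DC.SFX
  have hf : f (2 / α) = α * Real.exp Real.eulerMascheroniConstant * Real.log (2 / α - 1) := by
    rw [hSF.f4 _ hs.le hs4, hA A0 F f hSF]
    field_simp
  rw [← hf]
  refine le_of_forall_lt fun c hc => ?_
  obtain ⟨ε, hε, hc'⟩ : ∃ ε : ℝ, 0 < ε ∧ c < ENNReal.ofReal (f (2 / α) - ε) := by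
    have hct : c ≠ ⊤ := ne_top_of_lt hc
    have h3 : c.toReal < f (2 / α) := (ENNReal.lt_ofReal_iff_toReal_lt hct).1 hc
    refine ⟨(f (2 / α) - c.toReal) / 2, by linarith, ?_⟩
    rw [ENNReal.lt_ofReal_iff_toReal_lt hct]
    linarith
  refine lt_of_lt_of_le hc' ?_
  unfold sl
  refine le_liminf_of_le (by isBoundedDefault) ?_
  filter_upwards [hJ A0 F f hSF (2 / α) hs hs4 ε hε] with w hw
  refine ENNReal.ofReal_le_ofReal ?_
  unfold lo
  exact le_ciInf hw

end Pool.Agent.H50.LS
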