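import Pool.Agent.H50.LS.Stm
import Pool.Agent.H50.BF.FIN

/-! FINC: the sparsest intervals, lower bound of Jurkat and Richert. -/

set_option autoImplicit false

open Filter Topology
open scoped ENNReal

namespace Pool.Agent.H50.LS

open Pool.Agent.W23.DC (SF)
open Pool.Agent.H50.BF

theorem finc (hJ : S_JRL) (hA : S_AZ) (s : ℝ) (hs : 2 < s) (hs4 : s ≤ 4) :
    ENNReal.ofReal (2 * Real.exp Real.eulerMascheroniConstant * Real.log (s - 1) / s) ≤ sl s := by
  obtain ⟨A0, F, f, hSF⟩ := Pool.Agent.W366.DC.SFX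
  have hf : f s = 2 * Real.exp Real.eulerMascheroniConstant * Real.log (s - 1) / s := by
    rw [hSF.f4 _ hs.le hs4, hA A0 F f hSF]
  rw [← hf]
  refine le_of_forall_lt fun c hc => ?_
  obtain ⟨ε, hε, hc'⟩ : ∃ ε : ℝ, 0 < ε ∧ c < ENNReal.ofReal (f s - ε) := by
    have hct : c ≠ ⊤ := ne_top_of_lt hc
    have h3 : c.toReal < f s := (ENNReal.lt_ofReal_iff_toReal_lt hct).1 hc
    refine ⟨(f s - c.toReal) / 2, by linarith, ?_⟩
    rw [ENNReal.lt_ofReal_iff_toReal_lt hct]
    linarith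
  refine lt_of_lt_of_le hc' ?_
  unfold sl
  refine le_liminf_of_le (by isBoundedDefault) ?_
  filter_upwards [hJ A0 F f hSF s hs hs4 ε hε] with w hw
  refine ENNReal.ofReal_le_ofReal ?_
  unfold lo
  exact le_ciInf hw

end Pool.Agent.H50.LS
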