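import Pool.Agent.H50.LS.Stm

/-!
# Project LS, upper bounds: for `1 < s ≤ 3` every interval of length `w^s` contains at most
`(F(s) + ε) w^s ∏_{p ≤ w} (1 - 1/p)` integers without prime factors `≤ w`, `F(s) = 2 e^γ / s`.
The stubs are the mirror images of those in `Stm.lean`.
-/

set_option autoImplicit false

open Finset Filter Topology

namespace Pool.Agent.H50.LS

open Pool.Agent.W23.DC (SF)
open Pool.Agent.Y829 Pool.Agent.H50.BF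

/-- LSU (helper50).  The upper bound of the linear sieve for intervals. -/
def S_LSU : Prop := ∀ (A0 : ℝ) (F f : ℝ → ℝ), SF A0 F f → ∀ zeta tau eps : ℝ, 0 < zeta → zeta < 1 → tau < 1 →
  zeta ≤ tau → 0 < eps → ∃ (z0 N0 : ℕ) (e1 : ℝ), 1 ≤ z0 ∧ 0 < e1 ∧ e1 ≤ zeta ∧ ∀ N n0 : ℕ, N0 ≤ N →
    (((Ioc n0 (n0 + N)).filter (fun n => ∀ p ∈ Ps N z0 zeta, ¬ p ∣ n)).card : ℝ) ≤
      (e1 / zeta * F (tau / zeta) + e1 * eps) * (N * V (Ps N z0 e1))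

/-- CLU (100 lines; mirror of CLS.lean by helper27).
Proof.  Let `q = primorial z0`.  An integer `n` with `t < n ≤ t + U` without prime factors `≤ w` is coprime to `q` (`z0 ≤ w`), so
`n = q m + r`, `r = n % q` coprime to `q`, `m = n / q`.  For fixed `r < q` let `m0 = (t + q - r) / q`; then `q m + r > t` gives `m0 ≤ m`
and `q m + r ≤ t + U` gives `m ≤ m0 + U / q`, so `m ∈ [m0, m0 + N)`.  Choose `u ≥ 1` with `q u ≡ r (mod ∏ Ps)` (the elements of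
`Ps N z0 zeta` are primes `> z0`): `p ∣ q m + r ↔ p ∣ m + u`; `m + u ∈ Ioc (m0 + u - 1) (m0 + u - 1 + N)`, and the elements of `Ps` are
`≤ w`, hence do not divide `n`.  So at most `B` values of `m` for each of the `φ(q)` values of `r`. -/
def S_CLU : Prop := ∀ (z0 N w t U : ℕ) (zeta B : ℝ),
  (∀ n0 : ℕ, (((Ioc n0 (n0 + N)).filter (fun n => ∀ p ∈ Ps N z0 zeta, ¬ p ∣ n)).card : ℝ) ≤ B) →
  (∀ p ∈ Ps N z0 zeta, p ≤ w) → z0 ≤ w → U / primorial z0 + 1 ≤ N →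
  (sv (fun _ => 0) w t U : ℝ) ≤ (Nat.totient (primorial z0) : ℝ) * B

/-- PHU (50 lines; mirror of PHI.lean by helper25).
Proof.  The primes `≤ z0` and the elements of `Ps N z0 e1` together contain all primes `≤ ⌊N^e1⌋ - 1` (such a prime is
`< N^e1 ≤ N`); all factors `1 - 1/p` are in `(0, 1]`. -/
def S_PHU : Prop := ∀ (z0 N : ℕ) (e1 : ℝ), 2 ≤ N → e1 ≤ 1 →
  (Nat.totient (primorial z0) : ℝ) * V (Ps N z0 e1) ≤ (primorial z0 : ℝ) * (MM (⌊(N : ℝ) ^ e1⌋₊ - 1))⁻¹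

/-- NUU (100 lines; mirror of NUM.lean by helper69), `theorem nuu (h : S_MERT) : S_NUU`. -/
def S_NUU : Prop := ∀ (q : ℕ) (s e1 zeta : ℝ), 1 ≤ q → 0 < s → 0 < e1 → 0 < zeta → zeta * s < 1 →
  Tendsto (fun w : ℕ => ⌊(w : ℝ) ^ s⌋₊ / q + 1) atTop atTop ∧
  Tendsto (fun w : ℕ => (q : ℝ) * (⌊(w : ℝ) ^ s⌋₊ / q + 1 : ℕ) / (w : ℝ) ^ s) atTop (𝓝 1) ∧
  Tendsto (fun w : ℕ => MM w / MM (⌊((⌊(w : ℝ) ^ s⌋₊ / q + 1 : ℕ) : ℝ) ^ e1⌋₊ - 1)) atTop (𝓝 (1 / (e1 * s))) ∧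
  ∀ᶠ w : ℕ in atTop, ((⌊(w : ℝ) ^ s⌋₊ / q + 1 : ℕ) : ℝ) ^ zeta ≤ (w : ℝ)

/-- JRU (80 lines), `theorem jru (hl : S_LSU) (hc : S_CLU) (hp : S_PHU) (hn : S_NUU) : S_JRU` (helper50). -/
def S_JRU : Prop := ∀ (A0 : ℝ) (F f : ℝ → ℝ), SF A0 F f → ∀ s : ℝ, 1 < s → ∀ ε : ℝ, 0 < ε → ∀ᶠ w : ℕ in atTop,
  ∀ t : ℕ, (sv (fun _ => 0) w t ⌊(w : ℝ) ^ s⌋₊ : ℝ) * MM w / (w : ℝ) ^ s ≤ F s + ε

end Pool.Agent.H50.LS
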