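import Pool.Agent.H50.LS.StmQ
import Pool.Agent.H50.LS.StmU
import Pool.Agent.H50.BF.FIN

/-! FINR: the extremal densities are within `2 e^γ / Γ(s + 1)` of `1`. -/

set_option autoImplicit false

open Filter Topology
open scoped ENNReal

namespace Pool.Agent.H50.LS

open Pool.Agent.W23.DC (SF)
open Pool.Agent.H50.BF

theorem finr (hg : S_JRG) (hJ : S_JRU) (hA : S_AZ) (hq : S_QGA) (s : ℝ) (hs : 2 < s) :
    ENNReal.ofReal (1 - 2 * Real.exp Real.eulerMascheroniConstant / Real.Gamma (s + 1)) ≤ sl s ∧
    sh s ≤ ENNReal.ofReal (1 + 2 * Real.exp Real.eulerMascheroniConstant / Real.Gamma (s + 1)) := by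
  obtain ⟨A0, F, f, hSF⟩ := Pool.Agent.W366.DC.SFX
  have hA0 := hA A0 F f hSF
  have h1 := hq A0 F f hSF s (by linarith)
  rw [hA0] at h1
  have hF1 := hSF.F1 s (by linarith)
  have hf1 := hSF.f1 s (by linarith)
  constructor
  · have h2 : ENNReal.ofReal (f s) ≤ sl s := by
      refine le_of_forall_lt fun c hc => ?_
      obtain ⟨ε, hε, hc'⟩ : ∃ ε : ℝ, 0 < ε ∧ c < ENNReal.ofReal (f s - ε) := by
        have hct : c ≠ ⊤ := ne_top_of_lt hc
        have h3 : c.toReal < f s := (ENNReal.lt_ofReal_iff_toReal_lt hct).1 hc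
        refine ⟨(f s - c.toReal) / 2, by linarith, ?_⟩
        rw [ENNReal.lt_ofReal_iff_toReal_lt hct]
        linarith
      refine lt_of_lt_of_le hc' ?_
      unfold sl
      refine le_liminf_of_le (by isBoundedDefault) ?_
      filter_upwards [hg A0 F f hSF s hs ε hε] with w hw
      refine ENNReal.ofReal_le_ofReal ?_
      unfold lo
      exact le_ciInf hw
    exact (ENNReal.ofReal_le_ofReal (by linarith)).trans h2
  · have hF0 : 0 ≤ F s := by linarith
    have h2 : sh s ≤ ENNReal.ofReal (F s) := by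
      refine ENNReal.le_of_forall_pos_le_add fun ε hε _ => ?_
      have h1 : sh s ≤ ENNReal.ofReal (F s + ε) := by
        unfold sh
        refine limsup_le_of_le (by isBoundedDefault) ?_
        filter_upwards [hJ A0 F f hSF s (by linarith) ε (by exact_mod_cast hε)] with w hw
        refine ENNReal.ofReal_le_ofReal ?_
        unfold hi
        exact ciSup_le hw
      refine h1.trans (le_of_eq ?_)
      rw [ENNReal.ofReal_add hF0 (NNReal.coe_nonneg ε)]
      congr 1
      exact ENNReal.ofReal_coe_nnreal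
    exact h2.trans (ENNReal.ofReal_le_ofReal (by linarith))

end Pool.Agent.H50.LS
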