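import Pool.Agent.H50.LS.StmU
import Pool.Agent.H50.BF.FIN

/-! FINU: the densest intervals, upper bound of Jurkat and Richert. -/

set_option autoImplicit false

open Filter Topology
open scoped ENNReal

namespace Pool.Agent.H50.LS

open Pool.Agent.W23.DC (SF)
open Pool.Agent.H50.BF

theorem finu (hJ : S_JRU) (hA : S_AZ) (s : ℝ) (hs : 1 < s) (hs3 : s ≤ 3) :
    sh s ≤ ENNReal.ofReal (2 * Real.exp Real.eulerMascheroniConstant / s) := by
  obtain ⟨A0, F, f, hSF⟩ := Pool.Agent.W366.DC.SFX
  have hf : F s = 2 * Real.exp Real.eulerMascheroniConstant / s := by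
    rw [hSF.F3 _ hs.le hs3, hA A0 F f hSF]
  rw [← hf]
  have hF0 : 0 ≤ F s := by rw [hf]; positivity
  refine ENNReal.le_of_forall_pos_le_add fun ε hε _ => ?_
  have h1 : sh s ≤ ENNReal.ofReal (F s + ε) := by
    unfold sh
    refine limsup_le_of_le (by isBoundedDefault) ?_
    filter_upwards [hJ A0 F f hSF s hs ε (by exact_mod_cast hε)] with w hw
    refine ENNReal.ofReal_le_ofReal ?_
    unfold hi
    exact ciSup_le hw
  refine h1.trans (le_of_eq ?_)
  rw [ENNReal.ofReal_add hF0 (NNReal.coe_nonneg ε)]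
  congr 1
  exact ENNReal.ofReal_coe_nnreal

end Pool.Agent.H50.LS
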