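import Pool.Agent.H50.LS.Stm

/-! JRL: the lower bound of Jurkat and Richert for the integers without prime factors `≤ w` in intervals of length `w^s`. -/

set_option autoImplicit false

open Finset Filter Topology

namespace Pool.Agent.H50.LS

open Pool.Agent.W23.DC (SF)
open Pool.Agent.Y829 Pool.Agent.H50.BF

/-- choice of the parameters -/
theorem jrl_choice {A0 : ℝ} {F f : ℝ → ℝ} (hSF : SF A0 F f) {s : ℝ} (hs : 2 < s) {ε : ℝ} (hε : 0 < ε) :
    ∃ h : ℝ, 0 < h ∧ h < 1 ∧ 2 * ((1 + h) / s) < 1 - h ∧ f s - ε / 2 < f ((1 - h) / ((1 + h) / s)) / (1 + h) := by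
  have hs0 : (0 : ℝ) < s := by linarith
  have hc : ContinuousAt f s := hSF.cf.continuousAt (Ici_mem_nhds (by linarith))
  have h1 : Tendsto (fun h : ℝ => (1 - h) / ((1 + h) / s)) (𝓝[>] 0) (𝓝 s) := by
    have h2 : ContinuousAt (fun h : ℝ => (1 - h) / ((1 + h) / s)) 0 := by
      apply ContinuousAt.div
      · fun_prop
      · fun_prop
      · simp only [add_zero]
        positivity
    have h3 := h2.tendsto.mono_left (nhdsWithin_le_nhds (s := Set.Ioi 0))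
    simpa using h3
  have h2 : Tendsto (fun h : ℝ => f ((1 - h) / ((1 + h) / s)) / (1 + h)) (𝓝[>] 0) (𝓝 (f s)) := by
    have h3 : Tendsto (fun h : ℝ => 1 + h) (𝓝[>] 0) (𝓝 1) := by
      have h4 : ContinuousAt (fun h : ℝ => 1 + h) 0 := by fun_prop
      have h5 := h4.tendsto.mono_left (nhdsWithin_le_nhds (s := Set.Ioi 0))
      simpa using h5
    have h4 := (hc.tendsto.comp h1).div h3 one_ne_zero
    rw [div_one] at h4
    exact h4
  have h3 : Tendsto (fun h : ℝ => 1 - h - 2 * ((1 + h) / s)) (𝓝[>] 0) (𝓝 (1 - 2 / s)) := by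
    have h4 : ContinuousAt (fun h : ℝ => 1 - h - 2 * ((1 + h) / s)) 0 := by fun_prop
    have h5 := h4.tendsto.mono_left (nhdsWithin_le_nhds (s := Set.Ioi 0))
    have h6 : (1 : ℝ) - 0 - 2 * ((1 + 0) / s) = 1 - 2 / s := by ring
    rw [h6] at h5
    exact h5
  have h4 : (0 : ℝ) < 1 - 2 / s := by
    rw [sub_pos, div_lt_one hs0]
    exact hs
  obtain ⟨h, ha, hb, hc', hd⟩ := ((h2.eventually_const_lt (show f s - ε / 2 < f s by linarith)).and
    ((h3.eventually_const_lt h4).and ((eventually_mem_nhdsWithin : ∀ᶠ h : ℝ in 𝓝[>] 0, h ∈ Set.Ioi 0).and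
      (nhdsWithin_le_nhds (Iio_mem_nhds (show (0 : ℝ) < 1 by norm_num)))))).exists
  exact ⟨h, hc', hd, by linarith, ha⟩

theorem jrl (hl : S_LSS) (hc : S_CLS) (hp : S_PHI) (hn : S_NUM) : S_JRL := by
  classical
  intro A0 F f hSF s hs hs4 ε hε
  have hs0 : (0 : ℝ) < s := by linarith
  obtain ⟨h, h0, h1, h2, h3⟩ := jrl_choice hSF hs hε
  set zeta : ℝ := (1 + h) / s with hzeta
  set tau : ℝ := 1 - h with htau
  have hz0 : 0 < zeta := by positivity
  have ht0 : 0 < tau := by rw [htau]; linarith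
  have ht1 : tau < 1 := by rw [htau]; linarith
  have hz1 : zeta < 1 / 2 := by linarith
  have hzs : zeta * s = 1 + h := by rw [hzeta]; field_simp
  have hu2 : 2 < tau / zeta := by rw [lt_div_iff₀ hz0]; linarith
  have hu4 : tau / zeta ≤ 4 := by
    refine le_trans ?_ hs4
    rw [div_le_iff₀ hz0]
    nlinarith
  have hfpos : 0 < f (tau / zeta) := by
    rw [hSF.f4 _ hu2.le hu4]
    exact div_pos (mul_pos hSF.pos (Real.log_pos (by linarith))) (by linarith)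
  set eps : ℝ := min (f (tau / zeta) / zeta / 2) (ε / 2) with heps
  have hepos : 0 < eps := by positivity
  have he1' : eps ≤ f (tau / zeta) / zeta / 2 := min_le_left _ _
  have he2' : eps ≤ ε / 2 := min_le_right _ _
  obtain ⟨z0, N0, e1, hz01, he0, he1, hmain⟩ := hl A0 F f hSF zeta tau eps hz0 hz1 ht1 h2.le hepos
  set q : ℕ := primorial z0 with hq
  have hq1 : 1 ≤ q := primorial_pos z0
  set c1 : ℝ := e1 / zeta * f (tau / zeta) - e1 * eps with hc1
  have hc1pos : 0 < c1 := by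
    have h5 : c1 = e1 * (f (tau / zeta) / zeta - eps) := by rw [hc1]; ring
    rw [h5]
    apply mul_pos he0
    have : 0 < f (tau / zeta) / zeta := by positivity
    linarith
  obtain ⟨hN1, hN2, hN3, hN4⟩ := hn q s e1 zeta hq1 hs0 he0 hz0 (by rw [hzs]; linarith)
  have hlim : Tendsto (fun w : ℕ => c1 * ((q : ℝ) * (⌊(w : ℝ) ^ s⌋₊ / q - 1 : ℕ) / (w : ℝ) ^ s) *
      (MM w / MM ⌊((⌊(w : ℝ) ^ s⌋₊ / q - 1 : ℕ) : ℝ) ^ e1⌋₊)) atTop (𝓝 (c1 * 1 * (1 / (e1 * s)))) :=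
    (hN2.const_mul c1).mul hN3
  have hval : f s - ε < c1 * 1 * (1 / (e1 * s)) := by
    have h5 : c1 * 1 * (1 / (e1 * s)) = f (tau / zeta) / (1 + h) - eps / s := by
      rw [hc1, ← hzs]
      field_simp
    rw [h5]
    have h6 : eps / s ≤ ε / 4 := by
      rw [div_le_iff₀ hs0]
      nlinarith
    linarith
  have hev := hlim.eventually_const_lt hval
  have hz0' : ∀ᶠ w : ℕ in atTop, (z0 : ℝ) ≤ ((⌊(w : ℝ) ^ s⌋₊ / q - 1 : ℕ) : ℝ) ^ e1 :=
    ((tendsto_rpow_atTop he0).comp (tendsto_natCast_atTop_atTop.comp hN1)).eventually_ge_atTop _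
  filter_upwards [hev, hz0', hN4, hN1.eventually_ge_atTop (max N0 2), eventually_ge_atTop 1] with w hw1 hw2 hw3 hw4 hw5
  intro t
  set N : ℕ := ⌊(w : ℝ) ^ s⌋₊ / q - 1 with hN
  have hNN0 : N0 ≤ N := (le_max_left _ _).trans hw4
  have hNN2 : 2 ≤ N := (le_max_right _ _).trans hw4
  have hNr : (1 : ℝ) ≤ N := by exact_mod_cast (by omega : 1 ≤ N)
  have hcls := hc z0 N w t ⌊(w : ℝ) ^ s⌋₊ zeta (c1 * (N * V (Ps N z0 e1))) (fun n0 => hmain N n0 hNN0) (by
    intro p hpp hpz hpw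
    have h5 : (p : ℝ) < (N : ℝ) ^ zeta := lt_of_le_of_lt (by exact_mod_cast hpw) hw3
    refine mem_Ps.2 ⟨⟨hpp.one_le, ?_⟩, hpp, hpz, (tt_lt hNN2 hpp.pos zeta).2 h5⟩
    have h6 : (N : ℝ) ^ zeta ≤ (N : ℝ) ^ (1 : ℝ) := Real.rpow_le_rpow_of_exponent_le hNr (by linarith)
    rw [Real.rpow_one] at h6
    exact_mod_cast (h5.trans_le h6).le) (by
    have h5 : N + 1 = ⌊(w : ℝ) ^ s⌋₊ / q := by omega
    rw [h5, ← hq]
    exact (Nat.mul_div_le _ _).trans (Nat.le_succ _))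
  have hphi := hp z0 N e1 hNN2 hw2
  have hMw : 0 < MM w := by
    unfold MM
    refine prod_pos fun p hp' => ?_
    have hpp := (mem_filter.1 hp').2
    have : (2 : ℝ) ≤ p := by exact_mod_cast hpp.two_le
    apply inv_pos.2
    rw [sub_pos]
    exact inv_lt_one_of_one_lt₀ (by linarith)
  have hwpos : (0 : ℝ) < (w : ℝ) ^ s := Real.rpow_pos_of_pos (by exact_mod_cast hw5) _
  refine hw1.le.trans ?_
  rw [le_div_iff₀ hwpos]
  have h7 : c1 * ((q : ℝ) * (N : ℝ) / (w : ℝ) ^ s) * (MM w / MM ⌊(N : ℝ) ^ e1⌋₊) * (w : ℝ) ^ s =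
      c1 * N * ((q : ℝ) * (MM ⌊(N : ℝ) ^ e1⌋₊)⁻¹) * MM w := by
    field_simp
  rw [h7]
  apply mul_le_mul_of_nonneg_right _ hMw.le
  calc c1 * N * ((q : ℝ) * (MM ⌊(N : ℝ) ^ e1⌋₊)⁻¹) ≤ c1 * N * ((Nat.totient q : ℝ) * V (Ps N z0 e1)) :=
        mul_le_mul_of_nonneg_left hphi (by positivity)
    _ = (Nat.totient q : ℝ) * (c1 * (N * V (Ps N z0 e1))) := by ring
    _ ≤ _ := hcls

end Pool.Agent.H50.LS
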