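import Pool.Agent.H50.LS.StmU

/-! JRU: the upper bound of Jurkat and Richert for the integers without prime factors `≤ w` in intervals of length `w^s`. -/

set_option autoImplicit false

open Finset Filter Topology

namespace Pool.Agent.H50.LS

open Pool.Agent.W23.DC (SF)
open Pool.Agent.Y829 Pool.Agent.H50.BF

theorem jru (hl : S_LSU) (hc : S_CLU) (hp : S_PHU) (hn : S_NUU) : S_JRU := by
  classical
  intro A0 F f hSF s hs ε hε
  have hs0 : (0 : ℝ) < s := by linarith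
  have hF : 1 ≤ F s := hSF.F1 s hs.le
  obtain ⟨h, h0, h1, h2⟩ : ∃ h : ℝ, 0 < h ∧ h < 1 ∧ F s / (1 - h) < F s + ε / 2 := by
    have h3 : Tendsto (fun h : ℝ => F s / (1 - h)) (𝓝[>] 0) (𝓝 (F s)) := by
      have h4 : ContinuousAt (fun h : ℝ => F s / (1 - h)) 0 := by
        apply ContinuousAt.div
        · fun_prop
        · fun_prop
        · norm_num
      have h5 := h4.tendsto.mono_left (nhdsWithin_le_nhds (s := Set.Ioi 0))
      simpa using h5
    obtain ⟨h, ha, hb, hd⟩ := ((h3.eventually_lt_const (show F s < F s + ε / 2 by linarith)).and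
      ((eventually_mem_nhdsWithin : ∀ᶠ h : ℝ in 𝓝[>] 0, h ∈ Set.Ioi 0).and
        (nhdsWithin_le_nhds (Iio_mem_nhds (show (0 : ℝ) < 1 by norm_num))))).exists
    exact ⟨h, hb, hd, ha⟩
  set zeta : ℝ := (1 - h) / s with hzeta
  set tau : ℝ := 1 - h with htau
  have ht0 : 0 < tau := by rw [htau]; linarith
  have hz0 : 0 < zeta := by positivity
  have ht1 : tau < 1 := by rw [htau]; linarith
  have hzs : zeta * s = 1 - h := by rw [hzeta, htau]; field_simp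
  have hzt : zeta ≤ tau := by
    rw [hzeta]
    exact div_le_self ht0.le hs.le
  have hz1 : zeta < 1 := lt_of_le_of_lt hzt ht1
  have htz : tau / zeta = s := by
    rw [div_eq_iff hz0.ne', mul_comm, hzs]
  obtain ⟨z0, N0, e1, hz01, he0, he1, hmain⟩ := hl A0 F f hSF zeta tau (ε / 2) hz0 hz1 ht1 hzt (by positivity)
  rw [htz] at hmain
  set q : ℕ := primorial z0 with hq
  have hq1 : 1 ≤ q := primorial_pos z0
  set c1 : ℝ := e1 / zeta * F s + e1 * (ε / 2) with hc1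
  have hc1pos : 0 < c1 := by positivity
  obtain ⟨hN1, hN2, hN3, hN4⟩ := hn q s e1 zeta hq1 hs0 he0 hz0 (by rw [hzs]; linarith)
  have hlim : Tendsto (fun w : ℕ => c1 * ((q : ℝ) * (⌊(w : ℝ) ^ s⌋₊ / q + 1 : ℕ) / (w : ℝ) ^ s) *
      (MM w / MM (⌊((⌊(w : ℝ) ^ s⌋₊ / q + 1 : ℕ) : ℝ) ^ e1⌋₊ - 1))) atTop (𝓝 (c1 * 1 * (1 / (e1 * s)))) :=
    (hN2.const_mul c1).mul hN3
  have hval : c1 * 1 * (1 / (e1 * s)) < F s + ε := by
    have h5 : c1 * 1 * (1 / (e1 * s)) = F s / (1 - h) + ε / 2 / s := by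
      rw [hc1, ← hzs]
      field_simp
    rw [h5]
    have h6 : ε / 2 / s < ε / 2 := div_lt_self (by positivity) hs
    linarith
  have hev := hlim.eventually_lt_const hval
  filter_upwards [hev, hN4, hN1.eventually_ge_atTop (max N0 2), eventually_ge_atTop (max z0 1)] with w hw1 hw3 hw4 hw5
  intro t
  set N : ℕ := ⌊(w : ℝ) ^ s⌋₊ / q + 1 with hN
  have hNN0 : N0 ≤ N := (le_max_left _ _).trans hw4
  have hNN2 : 2 ≤ N := (le_max_right _ _).trans hw4
  have hwz : z0 ≤ w := (le_max_left _ _).trans hw5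
  have hw6 : 1 ≤ w := (le_max_right _ _).trans hw5
  have hNr : (1 : ℝ) ≤ N := by exact_mod_cast (by omega : 1 ≤ N)
  have hclu := hc z0 N w t ⌊(w : ℝ) ^ s⌋₊ zeta (c1 * (N * V (Ps N z0 e1))) (fun n0 => hmain N n0 hNN0) (by
    intro p hpp
    have h5 := (mem_Ps.1 hpp)
    have h6 := (tt_lt hNN2 h5.2.1.pos zeta).1 h5.2.2.2
    exact_mod_cast (h6.le.trans hw3)) hwz (by rw [← hq])
  have hphi := hp z0 N e1 hNN2 (by linarith)
  have hMw : 0 < MM w := by
    unfold MM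
    refine prod_pos fun p hp' => ?_
    have hpp := (mem_filter.1 hp').2
    have : (2 : ℝ) ≤ p := by exact_mod_cast hpp.two_le
    apply inv_pos.2
    rw [sub_pos]
    exact inv_lt_one_of_one_lt₀ (by linarith)
  have hwpos : (0 : ℝ) < (w : ℝ) ^ s := Real.rpow_pos_of_pos (by exact_mod_cast hw6) _
  refine le_trans ?_ hw1.le
  rw [div_le_iff₀ hwpos]
  have h7 : c1 * ((q : ℝ) * (N : ℝ) / (w : ℝ) ^ s) * (MM w / MM (⌊(N : ℝ) ^ e1⌋₊ - 1)) * (w : ℝ) ^ s =
      c1 * N * ((q : ℝ) * (MM (⌊(N : ℝ) ^ e1⌋₊ - 1))⁻¹) * MM w := by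
    field_simp
  rw [h7]
  apply mul_le_mul_of_nonneg_right _ hMw.le
  calc (sv (fun _ => 0) w t ⌊(w : ℝ) ^ s⌋₊ : ℝ) ≤ (Nat.totient q : ℝ) * (c1 * (N * V (Ps N z0 e1))) := hclu
    _ = c1 * N * ((Nat.totient q : ℝ) * V (Ps N z0 e1)) := by ring
    _ ≤ c1 * N * ((q : ℝ) * (MM (⌊(N : ℝ) ^ e1⌋₊ - 1))⁻¹) :=
        mul_le_mul_of_nonneg_left hphi (by positivity)

end Pool.Agent.H50.LS
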