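import Pool.Agent.H50.LS.Stm

/-! LSS: the linear sieve for intervals, with the constant of Jurkat and Richert (adapted from the library proof `Y829.ls`). -/

set_option autoImplicit false

open Finset Filter Topology

namespace Pool.Agent.H50.LS

open Pool.Agent.W23.DC Pool.Agent.Y829 Pool.Agent.H50.BF

theorem lss : S_LSS := by
  classical
  intro A0 F f hSF zeta tau eps hz0 hz1 ht1 h2z heps
  obtain ⟨C0, hC0, hmain⟩ := main_ineq
  set delta : ℝ := 1 - tau with hdelta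
  have h0 : 0 < delta := by rw [hdelta]; linarith
  have htau : tau = 1 - delta := by rw [hdelta]; ring
  have ht0 : 0 < tau := by linarith
  set f0 : ℝ := f (tau / zeta) with hf0
  set kap : ℝ := eps / 3 with hkap
  have hkpos : 0 < kap := by positivity
  -- choice of j
  have T1 : Tendsto (fun j : ℕ => (1 / 2 : ℝ) ^ j) atTop (𝓝 0) :=
    tendsto_pow_atTop_nhds_zero_of_lt_one (by norm_num) (by norm_num)
  have T2 : Tendsto (fun j : ℕ => (j : ℝ) * (1 / 2 : ℝ) ^ j) atTop (𝓝 0) :=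
    tendsto_self_mul_const_pow_of_lt_one (by norm_num) (by norm_num)
  have T3 : Tendsto (fun j : ℕ => 16 * (C0 : ℝ) * ((j : ℝ) * (1 / 2 : ℝ) ^ j)) atTop (𝓝 0) := by
    have := T2.const_mul (16 * (C0 : ℝ))
    rwa [mul_zero] at this
  have T4 : Tendsto (fun j : ℕ => 3 * zeta * ((1 / 2 : ℝ) ^ j) ^ 2) atTop (𝓝 0) := by
    have := (T1.pow 2).const_mul (3 * zeta)
    simpa using this
  obtain ⟨j, hj1, hj2, hj3, hj4, hj5⟩ := ((T1.eventually_le_const hz0).and
    ((T1.eventually_le_const (show (0 : ℝ) < delta / 8 by positivity)).and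
    ((T3.eventually_le_const (show (0 : ℝ) < delta / 4 by positivity)).and
    ((T4.eventually_le_const hkpos).and (eventually_ge_atTop C0))))).exists
  set e1 : ℝ := (1 / 2 : ℝ) ^ j with he1
  have he1pos : 0 < e1 := by positivity
  have he1le : e1 ≤ 1 := by linarith
  set b := 4 * j with hb
  have hbC : C0 ≤ b := by omega
  obtain ⟨eta, heta, hMT⟩ := Pool.Agent.W505.DC.MT Pool.Agent.W505.DC.MI A0 F f hSF e1 (e1 * kap)
    (2 ^ j) he1pos he1le (by positivity)
  obtain ⟨N1, hmer⟩ := mer e1 (min eta 1) he1pos (lt_min heta one_pos)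
  have ht : Tendsto (fun N : ℕ => (N : ℝ) ^ e1) atTop atTop :=
    (tendsto_rpow_atTop he1pos).comp tendsto_natCast_atTop_atTop
  have hlogs : ∀ᶠ N : ℕ in atTop, 4 * Real.log N ≤ (kap * e1) * (N : ℝ) ^ (5 * delta / 8) := by
    have h2 := (isLittleO_log_rpow_atTop (show (0 : ℝ) < 5 * delta / 8 by positivity)).bound
      (show (0 : ℝ) < kap * e1 / 4 by positivity)
    have h3 := tendsto_natCast_atTop_atTop.eventually h2
    filter_upwards [h3, eventually_ge_atTop 1] with N hN hN1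
    have hN1' : (1 : ℝ) ≤ N := by exact_mod_cast hN1
    rw [Real.norm_of_nonneg (Real.log_nonneg hN1'), Real.norm_of_nonneg (by positivity)] at hN
    linarith
  obtain ⟨N2, hN2⟩ := (((ht.eventually_gt_atTop (C0 : ℝ)).and (ht.eventually_gt_atTop 2)).and hlogs).exists_forall_of_atTop
  refine ⟨C0, max 2 (max N1 N2), e1, hC0, he1pos, hj1, ?_⟩
  intro N n0 hN
  have hN2' : 2 ≤ N := (le_max_left _ _).trans hN
  have hN1' := (le_max_left _ _).trans ((le_max_right _ _).trans hN)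
  obtain ⟨⟨hg1, hg2⟩, hg3⟩ := hN2 N ((le_max_right _ _).trans ((le_max_right _ _).trans hN))
  have hNr : (1 : ℝ) < N := by exact_mod_cast (by omega : 1 < N)
  have hN0 : (0 : ℝ) < N := by linarith
  obtain ⟨J, hJ1, hJ2, hJ3⟩ := exJ hN2' he1pos (by linarith) hg2
  have hPsJ : ∀ p ∈ Ps N C0 e1, p ≤ 2 ^ 2 ^ J := by
    intro p hp
    have h2 := (mem_Ps.1 hp)
    have h3 := (tt_lt hN2' h2.2.1.pos e1).1 h2.2.2.2
    have h4 := h3.trans_le hJ1
    exact_mod_cast h4.le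
  have key := hmain b J C0 N n0 (2 ^ j) e1 tau zeta hbC le_rfl hN2' ht0.le h2z hPsJ
  -- main term
  have hPprime : ∀ p ∈ pr N e1 zeta, p.Prime := fun p hp => (mem_pr.1 hp).2.1
  have hMer : Mer (pr N e1 zeta) (tt N) (fun p => 1 / (p : ℝ)) e1 zeta eta := by
    intro a b' ha hab hb'
    have h2 := hmer N hN1' a b' ha hab (by linarith)
    have h3 : (pr N e1 zeta).filter (fun p => a ≤ tt N p ∧ tt N p < b') = pr N a b' := by
      ext p
      rw [mem_filter, mem_pr, mem_pr]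
      constructor
      · rintro ⟨⟨h4, h5, _, _⟩, h6, h7⟩
        exact ⟨h4, h5, h6, h7⟩
      · rintro ⟨h4, h5, h6, h7⟩
        exact ⟨⟨h4, h5, by linarith, by linarith⟩, h6, h7⟩
    rw [h3]
    exact h2.trans (min_le_left _ _)
  have hMM := (hMT (pr N e1 zeta) (tt N) (fun p => 1 / (p : ℝ)) zeta (by linarith)
    (fun p _ => by positivity) (fun p hp => (mem_pr.1 hp).2.2.1) hMer (2 ^ j) le_rfl tau zeta (by
      push_cast
      have h2 : (2 : ℝ) ^ j * e1 = 1 := by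
        rw [he1, ← mul_pow]; norm_num
      nlinarith) hj1 le_rfl (by linarith) (by linarith)).2
      h2z
  rw [← hf0] at hMM
  -- second term
  have hsum : ∑ p ∈ pr N e1 zeta, 1 / (p : ℝ) ≤ Real.log (zeta / e1) + 1 := by
    have h2 := hmer N hN1' e1 zeta le_rfl hj1 (by linarith)
    have h3 := (abs_le.1 h2).2
    have h4 := min_le_right eta 1
    linarith
  have hexp : Real.exp (∑ p ∈ pr N e1 zeta, 1 / (p : ℝ)) ≤ 3 * (zeta / e1) := by
    calc Real.exp (∑ p ∈ pr N e1 zeta, 1 / (p : ℝ)) ≤ Real.exp (Real.log (zeta / e1) + 1) := Real.exp_le_exp.2 hsum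
      _ = zeta / e1 * Real.exp 1 := by rw [Real.exp_add, Real.exp_log (by positivity)]
      _ ≤ zeta / e1 * 3 := by
        apply mul_le_mul_of_nonneg_left _ (by positivity)
        have := Real.exp_one_lt_d9; linarith
      _ = _ := by ring
  have hbe : (1 / 2 : ℝ) ^ b = e1 ^ 4 := by
    rw [hb, he1, ← pow_mul, mul_comm]
  set X : ℝ := N * V (Ps N C0 e1) with hX
  have hVpos : 0 < V (Ps N C0 e1) := V_pos fun p hp => (mem_Ps.1 hp).2.1
  have hX0 : 0 < X := by positivity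
  have hsecond : (1 / 2 : ℝ) ^ b * X * Real.exp (∑ p ∈ pr N e1 zeta, 1 / (p : ℝ)) ≤ kap * e1 * X := by
    rw [hbe]
    calc e1 ^ 4 * X * Real.exp (∑ p ∈ pr N e1 zeta, 1 / (p : ℝ)) ≤ e1 ^ 4 * X * (3 * (zeta / e1)) :=
          mul_le_mul_of_nonneg_left hexp (by positivity)
      _ = (3 * zeta * e1 ^ 2) * (e1 * X) := by field_simp
      _ ≤ kap * (e1 * X) := mul_le_mul_of_nonneg_right hj4 (by positivity)
      _ = _ := by ring
  -- third term
  have hV1 : (N : ℝ) ^ (-e1) ≤ V (Ps N C0 e1) := by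
    have h2 := V_ge (P := Ps N C0 e1) (fun p hp => (mem_Ps.1 hp).2.1) (y := ⌊(N : ℝ) ^ e1⌋₊)
      (Nat.le_floor (by push_cast; linarith)) (by
        intro p hp
        have h3 := (tt_lt hN2' (mem_Ps.1 hp).2.1.pos e1).1 (mem_Ps.1 hp).2.2.2
        exact Nat.le_floor h3.le)
    refine le_trans ?_ h2
    rw [Real.rpow_neg hN0.le, ← one_div]
    apply one_div_le_one_div_of_le
    · have : (0 : ℕ) < ⌊(N : ℝ) ^ e1⌋₊ := Nat.floor_pos.2 (by linarith)
      exact_mod_cast this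
    · exact Nat.floor_le (by positivity)
  have hXlow : (N : ℝ) ^ (1 - delta / 8) ≤ X := by
    calc (N : ℝ) ^ (1 - delta / 8) ≤ (N : ℝ) ^ (1 + -e1) :=
          Real.rpow_le_rpow_of_exponent_le hNr.le (by linarith)
      _ = N * (N : ℝ) ^ (-e1) := by rw [Real.rpow_add hN0, Real.rpow_one]
      _ ≤ X := mul_le_mul_of_nonneg_left hV1 hN0.le
  have hthird : (N : ℝ) ^ tau * (((J : ℝ) + 2) * (((2 ^ 2 ^ J : ℕ) : ℝ) ^ (C0 * b)) ^ 2) ≤ kap * e1 * X := by
    have h2 : (((2 ^ 2 ^ J : ℕ) : ℝ) ^ (C0 * b)) ^ 2 ≤ (N : ℝ) ^ (delta / 4) := by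
      calc (((2 ^ 2 ^ J : ℕ) : ℝ) ^ (C0 * b)) ^ 2 = ((2 ^ 2 ^ J : ℕ) : ℝ) ^ (C0 * b * 2) := by rw [← pow_mul]
        _ ≤ ((N : ℝ) ^ (2 * e1)) ^ (C0 * b * 2) := pow_le_pow_left₀ (by positivity) hJ2 _
        _ = (N : ℝ) ^ (2 * e1 * ((C0 * b * 2 : ℕ) : ℝ)) := by
          rw [← Real.rpow_natCast, ← Real.rpow_mul hN0.le]
        _ ≤ (N : ℝ) ^ (delta / 4) := by
          apply Real.rpow_le_rpow_of_exponent_le hNr.le
          rw [hb]
          push_cast
          refine le_trans (le_of_eq ?_) hj3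
          ring
    calc (N : ℝ) ^ tau * (((J : ℝ) + 2) * (((2 ^ 2 ^ J : ℕ) : ℝ) ^ (C0 * b)) ^ 2) ≤
        (N : ℝ) ^ tau * ((4 * Real.log N) * (N : ℝ) ^ (delta / 4)) := by
          apply mul_le_mul_of_nonneg_left _ (by positivity)
          exact mul_le_mul hJ3 h2 (by positivity) (by have := Real.log_nonneg hNr.le; positivity)
      _ ≤ (N : ℝ) ^ tau * ((kap * e1 * (N : ℝ) ^ (5 * delta / 8)) * (N : ℝ) ^ (delta / 4)) := by
          apply mul_le_mul_of_nonneg_left _ (by positivity)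
          exact mul_le_mul_of_nonneg_right hg3 (by positivity)
      _ = kap * e1 * (N : ℝ) ^ (1 - delta / 8) := by
          have h3 : (N : ℝ) ^ (1 - delta / 8) = (N : ℝ) ^ tau * (N : ℝ) ^ (5 * delta / 8) * (N : ℝ) ^ (delta / 4) := by
            rw [← Real.rpow_add hN0, ← Real.rpow_add hN0]
            congr 1
            rw [htau]; ring
          rw [h3]; ring
      _ ≤ _ := mul_le_mul_of_nonneg_left hXlow (by positivity)
  -- the set
  have hsets : ∀ n, n ∈ (AA N C0 n0 e1).filter (fun n => ∀ p ∈ pr N e1 zeta, ¬ p ∣ n) →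
      n ∈ Ioc n0 (n0 + N) ∧ ∀ p ∈ Ps N C0 zeta, ¬ p ∣ n := by
    intro n hn
    rw [mem_filter] at hn
    unfold AA at hn
    rw [mem_filter] at hn
    refine ⟨hn.1.1, fun p hp => ?_⟩
    have h2 := mem_Ps.1 hp
    by_cases h3 : tt N p < e1
    · exact hn.1.2 p (mem_Ps.2 ⟨h2.1, h2.2.1, h2.2.2.1, h3⟩)
    · exact hn.2 p (mem_pr.2 ⟨h2.1, h2.2.1, not_lt.1 h3, h2.2.2.2⟩)
  have hmainterm : X * (e1 / zeta * f0 - e1 * kap) ≤ X * MM (pr N e1 zeta) (tt N) (fun p => 1 / (p : ℝ)) (2 ^ j) false tau zeta :=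
    mul_le_mul_of_nonneg_left hMM hX0.le
  refine le_trans (b := (((AA N C0 n0 e1).filter (fun n => ∀ p ∈ pr N e1 zeta, ¬ p ∣ n)).card : ℝ)) ?_ ?_
  · have h5 : (e1 / zeta * f0 - e1 * eps) * X = X * (e1 / zeta * f0 - e1 * kap) - kap * e1 * X - kap * e1 * X := by
      rw [hkap]; ring
    rw [h5]
    linarith [key, hmainterm, hsecond, hthird]
  · apply Nat.cast_le.2
    apply card_le_card
    intro n hn
    exact Finset.mem_filter.2 (hsets n hn)

end Pool.Agent.H50.LS
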