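import Pool.Agent.H50.LS.StmU

/-! LSU: the upper bound of the linear sieve for intervals, with the constant of Jurkat and Richert (mirror of LSS; the proof
follows the library files `Y829/LS2`, `Y829/LS3`). -/

set_option autoImplicit false

open Finset Filter Topology

namespace Pool.Agent.H50.LS

open Pool.Agent
open Pool.Agent.W23.DC Pool.Agent.Y829 Pool.Agent.H50.BF

open Classical in
theorem lsu_upper (N z0 n0 K : ℕ) (e1 tau zeta : ℝ) (hN : 2 ≤ N) :
    (((AA N z0 n0 e1).filter (fun n => ∀ p ∈ pr N e1 zeta, ¬ p ∣ n)).card : ℝ) ≤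
    LL (pr N e1 zeta) (tt N) (GG N z0 n0 e1) K true tau zeta 1 := by
  set P := pr N e1 zeta with hP
  set A := AA N z0 n0 e1 with hA
  have hs : Siz P (tt N) := siz hN e1 zeta
  have e1' : GG N z0 n0 e1 = fun e => ∑ n ∈ A, (fun (n e : ℕ) => if e ∣ n then (1 : ℝ) else 0) n e := by
    funext e
    unfold GG
    rw [← hA, card_filter]
    push_cast
    rfl
  rw [e1', Pool.Agent.W120.DC.LN.1 P (tt N) A (fun (n e : ℕ) => if e ∣ n then (1 : ℝ) else 0) K true tau zeta 1]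
  rw [card_filter]
  push_cast
  apply sum_le_sum
  intro n _
  have h := (Pool.Agent.W52.DC.PT P (tt N) hs n K tau zeta 1 (by
    intro p hp _ hd
    exact (hs.pr p hp).one_lt.ne' (Nat.dvd_one.1 hd))).1
  refine le_trans ?_ (h.trans (le_of_eq ?_))
  · by_cases h1 : ∀ p ∈ P, ¬ p ∣ n
    · rw [if_pos h1, if_pos]
      exact ⟨one_dvd _, fun p hp _ => h1 p hp⟩
    · rw [if_neg h1]
      split_ifs <;> norm_num
  · congr 1

/-- the upper bound of the linear sieve with the error terms -/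
theorem lsu_main : ∃ C0 : ℕ, 1 ≤ C0 ∧ ∀ (b J z0 N n0 K : ℕ) (e1 tau zeta : ℝ), C0 ≤ b → C0 ≤ z0 → 2 ≤ N →
    0 ≤ tau → (∀ p ∈ Ps N z0 e1, p ≤ 2 ^ 2 ^ J) →
    (((AA N z0 n0 e1).filter (fun n => ∀ p ∈ pr N e1 zeta, ¬ p ∣ n)).card : ℝ) ≤
    N * V (Ps N z0 e1) * (Pool.Agent.W23.DC.MM (pr N e1 zeta) (tt N) (fun p => 1 / (p : ℝ)) K true tau zeta) +
      (1 / 2 : ℝ) ^ b * (N * V (Ps N z0 e1)) * Real.exp (∑ p ∈ pr N e1 zeta, 1 / (p : ℝ)) +
      (N : ℝ) ^ tau * (((J : ℝ) + 2) * (((2 ^ 2 ^ J : ℕ) : ℝ) ^ (C0 * b)) ^ 2) := by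
  classical
  obtain ⟨C0, hC0, hc⟩ := count_e
  refine ⟨C0, hC0, ?_⟩
  intro b J z0 N n0 K e1 tau zeta hb hz hN htau hJ
  have hs : Siz (pr N e1 zeta) (tt N) := siz hN e1 zeta
  set X : ℝ := N * V (Ps N z0 e1) with hX
  set E0 : ℝ := ((J : ℝ) + 2) * (((2 ^ 2 ^ J : ℕ) : ℝ) ^ (C0 * b)) ^ 2 with hE0
  set r : ℕ → ℝ := fun e => GG N z0 n0 e1 e - X * (1 / (e : ℝ)) with hr
  have hG : GG N z0 n0 e1 = fun e => X * (fun e : ℕ => 1 / (e : ℝ)) e + r e := by
    funext e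
    simp only [hr]
    ring
  have h1 := lsu_upper N z0 n0 K e1 tau zeta hN
  rw [hG, Pool.Agent.W120.DC.LN.2.1 (pr N e1 zeta) (tt N) X (fun e : ℕ => 1 / (e : ℝ)) r K true tau zeta 1,
    Pool.Agent.W120.DC.LN.2.2 (pr N e1 zeta) (tt N) hs (fun p => 1 / (p : ℝ)) (fun e : ℕ => 1 / (e : ℝ)) (by
      intro d p _ _
      push_cast
      rw [one_div_mul_one_div]) K true tau zeta 1 (by
      intro p hp _ hd
      exact (hs.pr p hp).one_lt.ne' (Nat.dvd_one.1 hd))] at h1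
  have h2 := Pool.Agent.W586.DC.ER (pr N e1 zeta) (tt N) hs r K true tau zeta 1 htau (fun h => absurd h (by simp))
  have hV0 : 0 < V (Ps N z0 e1) := V_pos fun p hp => (mem_Ps.1 hp).2.1
  have hX0 : 0 ≤ X := by positivity
  have hE00 : 0 ≤ E0 := by positivity
  have h3 : ∑ e ∈ EE (pr N e1 zeta) (tt N) tau zeta, |r (1 * e)| ≤
      ∑ e ∈ EE (pr N e1 zeta) (tt N) tau zeta, ((1 / 2 : ℝ) ^ b * X * (1 / (e : ℝ)) + E0) := by
    apply sum_le_sum
    intro e he
    obtain ⟨s, hsub, hse, he1, _⟩ := mem_EE hN he htau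
    rw [one_mul]
    have h4 := hc b J z0 N n0 e e1 hb hz he1 hJ (by
      intro p hp hd
      have hpp := (mem_Ps.1 hp).2.1
      rw [hse] at hd
      obtain ⟨q, hq, hpq⟩ := (Prime.dvd_finset_prod_iff hpp.prime _).1 hd
      have hqq := (mem_pr.1 (hsub hq)).2.1
      rw [Nat.prime_dvd_prime_iff_eq hpp hqq] at hpq
      have h5 := (mem_pr.1 (hsub hq)).2.2.1
      have h6 := (mem_Ps.1 hp).2.2.2
      rw [hpq] at h6
      linarith)
    have h7 : r e = ((((Ioc n0 (n0 + N)).filter (fun n => ∀ p ∈ Ps N z0 e1, ¬ p ∣ n)).filter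
        (fun n => e ∣ n)).card : ℝ) - N * V (Ps N z0 e1) * (1 / (e : ℝ)) := by
      simp only [hr, hX, GG, AA]
    rw [h7]
    refine h4.trans (le_of_eq ?_)
    rw [hX, hE0]
    ring
  rw [sum_add_distrib, ← mul_sum, sum_const, nsmul_eq_mul] at h3
  obtain ⟨h8, h9⟩ := sum_EE (e1 := e1) (zeta := zeta) hN htau
  have h10 : (1 / 2 : ℝ) ^ b * X * ∑ e ∈ EE (pr N e1 zeta) (tt N) tau zeta, 1 / (e : ℝ) ≤
      (1 / 2 : ℝ) ^ b * X * Real.exp (∑ p ∈ pr N e1 zeta, 1 / (p : ℝ)) :=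
    mul_le_mul_of_nonneg_left h8 (by positivity)
  have h11 := mul_le_mul_of_nonneg_right h9 hE00
  have h12 := (abs_le.1 h2).2
  have h13 : 1 / ((1 : ℕ) : ℝ) = 1 := by norm_num
  rw [h13, one_mul] at h1
  linarith

theorem lsu : S_LSU := by
  classical
  intro A0 F f hSF zeta tau eps hz0 hz1 ht1 h2z heps
  obtain ⟨C0, hC0, hmain⟩ := lsu_main
  set delta : ℝ := 1 - tau with hdelta
  have h0 : 0 < delta := by rw [hdelta]; linarith
  have htau : tau = 1 - delta := by rw [hdelta]; ring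
  have ht0 : 0 < tau := by linarith
  set f0 : ℝ := F (tau / zeta) with hf0
  set kap : ℝ := eps / 3 with hkap
  have hkpos : 0 < kap := by positivity
  -- choice of j
  have T1 : Tendsto (fun j : ℕ => (1 / 2 : ℝ) ^ j) atTop (𝓝 0) :=
    tendsto_pow_atTop_nhds_zero_of_lt_one (by norm_num) (by norm_num)
  have T2 : Tendsto (fun j : ℕ => (j : ℝ) * (1 / 2 : ℝ) ^ j) atTop (𝓝 0) :=
    tendsto_self_mul_const_pow_of_lt_one (by norm_num) (by norm_num)
  have T3 : Tendsto (fun j : ℕ => 16 * (C0 : ℝ) * ((j : ℝ) * (1 / 2 : ℝ) ^ j)) atTop (𝓝 0) := by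
    have := T2.const_mul (16 * (C0 : ℝ))
    rwa [mul_zero] at this
  have T4 : Tendsto (fun j : ℕ => 3 * zeta * ((1 / 2 : ℝ) ^ j) ^ 2) atTop (𝓝 0) := by
    have := (T1.pow 2).const_mul (3 * zeta)
    simpa using this
  obtain ⟨j, hj1, hj2, hj3, hj4, hj5⟩ := ((T1.eventually_le_const hz0).and
    ((T1.eventually_le_const (show (0 : ℝ) < delta / 8 by positivity)).and
    ((T3.eventually_le_const (show (0 : ℝ) < delta / 4 by positivity)).and
    ((T4.eventually_le_const hkpos).and (eventually_ge_atTop C0))))).exists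
  set e1 : ℝ := (1 / 2 : ℝ) ^ j with he1
  have he1pos : 0 < e1 := by positivity
  have he1le : e1 ≤ 1 := by linarith
  set b := 4 * j with hb
  have hbC : C0 ≤ b := by omega
  obtain ⟨eta, heta, hMT⟩ := Pool.Agent.W505.DC.MT Pool.Agent.W505.DC.MI A0 F f hSF e1 (e1 * kap)
    (2 ^ j) he1pos he1le (by positivity)
  obtain ⟨N1, hmer⟩ := mer e1 (min eta 1) he1pos (lt_min heta one_pos)
  have ht : Tendsto (fun N : ℕ => (N : ℝ) ^ e1) atTop atTop :=
    (tendsto_rpow_atTop he1pos).comp tendsto_natCast_atTop_atTop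
  have hlogs : ∀ᶠ N : ℕ in atTop, 4 * Real.log N ≤ (kap * e1) * (N : ℝ) ^ (5 * delta / 8) := by
    have h2 := (isLittleO_log_rpow_atTop (show (0 : ℝ) < 5 * delta / 8 by positivity)).bound
      (show (0 : ℝ) < kap * e1 / 4 by positivity)
    have h3 := tendsto_natCast_atTop_atTop.eventually h2
    filter_upwards [h3, eventually_ge_atTop 1] with N hN hN1
    have hN1' : (1 : ℝ) ≤ N := by exact_mod_cast hN1
    rw [Real.norm_of_nonneg (Real.log_nonneg hN1'), Real.norm_of_nonneg (by positivity)] at hN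
    linarith
  obtain ⟨N2, hN2⟩ := (((ht.eventually_gt_atTop (C0 : ℝ)).and (ht.eventually_gt_atTop 2)).and hlogs).exists_forall_of_atTop
  refine ⟨C0, max 2 (max N1 N2), e1, hC0, he1pos, hj1, ?_⟩
  intro N n0 hN
  have hN2' : 2 ≤ N := (le_max_left _ _).trans hN
  have hN1' := (le_max_left _ _).trans ((le_max_right _ _).trans hN)
  obtain ⟨⟨hg1, hg2⟩, hg3⟩ := hN2 N ((le_max_right _ _).trans ((le_max_right _ _).trans hN))
  have hNr : (1 : ℝ) < N := by exact_mod_cast (by omega : 1 < N)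
  have hN0 : (0 : ℝ) < N := by linarith
  obtain ⟨J, hJ1, hJ2, hJ3⟩ := exJ hN2' he1pos (by linarith) hg2
  have hPsJ : ∀ p ∈ Ps N C0 e1, p ≤ 2 ^ 2 ^ J := by
    intro p hp
    have h2 := (mem_Ps.1 hp)
    have h3 := (tt_lt hN2' h2.2.1.pos e1).1 h2.2.2.2
    have h4 := h3.trans_le hJ1
    exact_mod_cast h4.le
  have key := hmain b J C0 N n0 (2 ^ j) e1 tau zeta hbC le_rfl hN2' ht0.le hPsJ
  -- main term
  have hPprime : ∀ p ∈ pr N e1 zeta, p.Prime := fun p hp => (mem_pr.1 hp).2.1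
  have hMer : Mer (pr N e1 zeta) (tt N) (fun p => 1 / (p : ℝ)) e1 zeta eta := by
    intro a b' ha hab hb'
    have h2 := hmer N hN1' a b' ha hab (by linarith)
    have h3 : (pr N e1 zeta).filter (fun p => a ≤ tt N p ∧ tt N p < b') = pr N a b' := by
      ext p
      rw [mem_filter, mem_pr, mem_pr]
      constructor
      · rintro ⟨⟨h4, h5, _, _⟩, h6, h7⟩
        exact ⟨h4, h5, h6, h7⟩
      · rintro ⟨h4, h5, h6, h7⟩
        exact ⟨⟨h4, h5, by linarith, by linarith⟩, h6, h7⟩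
    rw [h3]
    exact h2.trans (min_le_left _ _)
  have hMM := (hMT (pr N e1 zeta) (tt N) (fun p => 1 / (p : ℝ)) zeta (by linarith)
    (fun p _ => by positivity) (fun p hp => (mem_pr.1 hp).2.2.1) hMer (2 ^ j) le_rfl tau zeta (by
      push_cast
      have h2 : (2 : ℝ) ^ j * e1 = 1 := by
        rw [he1, ← mul_pow]; norm_num
      nlinarith) hj1 le_rfl (by linarith) (by linarith)).1
  rw [← hf0] at hMM
  -- second term
  have hsum : ∑ p ∈ pr N e1 zeta, 1 / (p : ℝ) ≤ Real.log (zeta / e1) + 1 := by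
    have h2 := hmer N hN1' e1 zeta le_rfl hj1 (by linarith)
    have h3 := (abs_le.1 h2).2
    have h4 := min_le_right eta 1
    linarith
  have hexp : Real.exp (∑ p ∈ pr N e1 zeta, 1 / (p : ℝ)) ≤ 3 * (zeta / e1) := by
    calc Real.exp (∑ p ∈ pr N e1 zeta, 1 / (p : ℝ)) ≤ Real.exp (Real.log (zeta / e1) + 1) := Real.exp_le_exp.2 hsum
      _ = zeta / e1 * Real.exp 1 := by rw [Real.exp_add, Real.exp_log (by positivity)]
      _ ≤ zeta / e1 * 3 := by
        apply mul_le_mul_of_nonneg_left _ (by positivity)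
        have := Real.exp_one_lt_d9; linarith
      _ = _ := by ring
  have hbe : (1 / 2 : ℝ) ^ b = e1 ^ 4 := by
    rw [hb, he1, ← pow_mul, mul_comm]
  set X : ℝ := N * V (Ps N C0 e1) with hX
  have hVpos : 0 < V (Ps N C0 e1) := V_pos fun p hp => (mem_Ps.1 hp).2.1
  have hX0 : 0 < X := by positivity
  have hsecond : (1 / 2 : ℝ) ^ b * X * Real.exp (∑ p ∈ pr N e1 zeta, 1 / (p : ℝ)) ≤ kap * e1 * X := by
    rw [hbe]
    calc e1 ^ 4 * X * Real.exp (∑ p ∈ pr N e1 zeta, 1 / (p : ℝ)) ≤ e1 ^ 4 * X * (3 * (zeta / e1)) :=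
          mul_le_mul_of_nonneg_left hexp (by positivity)
      _ = (3 * zeta * e1 ^ 2) * (e1 * X) := by field_simp
      _ ≤ kap * (e1 * X) := mul_le_mul_of_nonneg_right hj4 (by positivity)
      _ = _ := by ring
  -- third term
  have hV1 : (N : ℝ) ^ (-e1) ≤ V (Ps N C0 e1) := by
    have h2 := V_ge (P := Ps N C0 e1) (fun p hp => (mem_Ps.1 hp).2.1) (y := ⌊(N : ℝ) ^ e1⌋₊)
      (Nat.le_floor (by push_cast; linarith)) (by
        intro p hp
        have h3 := (tt_lt hN2' (mem_Ps.1 hp).2.1.pos e1).1 (mem_Ps.1 hp).2.2.2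
        exact Nat.le_floor h3.le)
    refine le_trans ?_ h2
    rw [Real.rpow_neg hN0.le, ← one_div]
    apply one_div_le_one_div_of_le
    · have : (0 : ℕ) < ⌊(N : ℝ) ^ e1⌋₊ := Nat.floor_pos.2 (by linarith)
      exact_mod_cast this
    · exact Nat.floor_le (by positivity)
  have hXlow : (N : ℝ) ^ (1 - delta / 8) ≤ X := by
    calc (N : ℝ) ^ (1 - delta / 8) ≤ (N : ℝ) ^ (1 + -e1) :=
          Real.rpow_le_rpow_of_exponent_le hNr.le (by linarith)
      _ = N * (N : ℝ) ^ (-e1) := by rw [Real.rpow_add hN0, Real.rpow_one]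
      _ ≤ X := mul_le_mul_of_nonneg_left hV1 hN0.le
  have hthird : (N : ℝ) ^ tau * (((J : ℝ) + 2) * (((2 ^ 2 ^ J : ℕ) : ℝ) ^ (C0 * b)) ^ 2) ≤ kap * e1 * X := by
    have h2 : (((2 ^ 2 ^ J : ℕ) : ℝ) ^ (C0 * b)) ^ 2 ≤ (N : ℝ) ^ (delta / 4) := by
      calc (((2 ^ 2 ^ J : ℕ) : ℝ) ^ (C0 * b)) ^ 2 = ((2 ^ 2 ^ J : ℕ) : ℝ) ^ (C0 * b * 2) := by rw [← pow_mul]
        _ ≤ ((N : ℝ) ^ (2 * e1)) ^ (C0 * b * 2) := pow_le_pow_left₀ (by positivity) hJ2 _
        _ = (N : ℝ) ^ (2 * e1 * ((C0 * b * 2 : ℕ) : ℝ)) := by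
          rw [← Real.rpow_natCast, ← Real.rpow_mul hN0.le]
        _ ≤ (N : ℝ) ^ (delta / 4) := by
          apply Real.rpow_le_rpow_of_exponent_le hNr.le
          rw [hb]
          push_cast
          refine le_trans (le_of_eq ?_) hj3
          ring
    calc (N : ℝ) ^ tau * (((J : ℝ) + 2) * (((2 ^ 2 ^ J : ℕ) : ℝ) ^ (C0 * b)) ^ 2) ≤
        (N : ℝ) ^ tau * ((4 * Real.log N) * (N : ℝ) ^ (delta / 4)) := by
          apply mul_le_mul_of_nonneg_left _ (by positivity)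
          exact mul_le_mul hJ3 h2 (by positivity) (by have := Real.log_nonneg hNr.le; positivity)
      _ ≤ (N : ℝ) ^ tau * ((kap * e1 * (N : ℝ) ^ (5 * delta / 8)) * (N : ℝ) ^ (delta / 4)) := by
          apply mul_le_mul_of_nonneg_left _ (by positivity)
          exact mul_le_mul_of_nonneg_right hg3 (by positivity)
      _ = kap * e1 * (N : ℝ) ^ (1 - delta / 8) := by
          have h3 : (N : ℝ) ^ (1 - delta / 8) = (N : ℝ) ^ tau * (N : ℝ) ^ (5 * delta / 8) * (N : ℝ) ^ (delta / 4) := by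
            rw [← Real.rpow_add hN0, ← Real.rpow_add hN0]
            congr 1
            rw [htau]; ring
          rw [h3]; ring
      _ ≤ _ := mul_le_mul_of_nonneg_left hXlow (by positivity)
  -- the set
  have hsets : ∀ n, n ∈ (Ioc n0 (n0 + N)).filter (fun n => ∀ p ∈ Ps N C0 zeta, ¬ p ∣ n) →
      n ∈ (AA N C0 n0 e1).filter (fun n => ∀ p ∈ pr N e1 zeta, ¬ p ∣ n) := by
    intro n hn
    rw [mem_filter] at hn
    rw [mem_filter]
    unfold AA
    rw [mem_filter]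
    refine ⟨⟨hn.1, fun p hp => hn.2 p ?_⟩, fun p hp => hn.2 p ?_⟩
    · have h2 := mem_Ps.1 hp
      exact mem_Ps.2 ⟨h2.1, h2.2.1, h2.2.2.1, h2.2.2.2.trans_le hj1⟩
    · have h2 := mem_pr.1 hp
      refine mem_Ps.2 ⟨h2.1, h2.2.1, ?_, h2.2.2.2⟩
      have h3 : (N : ℝ) ^ e1 ≤ p := by
        by_contra hcon
        push Not at hcon
        exact absurd ((tt_lt hN2' h2.2.1.pos e1).2 hcon) (not_lt.2 h2.2.2.1)
      have h4 : (C0 : ℝ) < p := hg1.trans_le h3
      exact_mod_cast h4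
  have hmainterm : X * Pool.Agent.W23.DC.MM (pr N e1 zeta) (tt N) (fun p => 1 / (p : ℝ)) (2 ^ j) true tau zeta ≤ X * (e1 / zeta * f0 + e1 * kap) :=
    mul_le_mul_of_nonneg_left hMM hX0.le
  refine le_trans (b := (((AA N C0 n0 e1).filter (fun n => ∀ p ∈ pr N e1 zeta, ¬ p ∣ n)).card : ℝ)) ?_ ?_
  · apply Nat.cast_le.2
    apply card_le_card
    intro n hn
    exact hsets n hn
  · have h5 : (e1 / zeta * f0 + e1 * eps) * X = X * (e1 / zeta * f0 + e1 * kap) + kap * e1 * X + kap * e1 * X := by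
      rw [hkap]; ring
    rw [h5]
    linarith [key, hmainterm, hsecond, hthird]

end Pool.Agent.H50.LS
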