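import Pool.Agent.H50.LS.Stm

/-!
Stub NUM (helper69): limits, from Mertens.
-/

set_option autoImplicit false

open Finset Filter Topology

namespace Pool.Agent.H50.LS

open Pool.Agent.H50.BF

lemma num_bounds (q : ℕ) (hq : 1 ≤ q) (x : ℝ) (hx : 0 ≤ x) :
    x - 2 * q ≤ (q : ℝ) * (⌊x⌋₊ / q - 1 : ℕ) ∧ (q : ℝ) * (⌊x⌋₊ / q - 1 : ℕ) ≤ x := by
  have h1 : ⌊x⌋₊ < q * (⌊x⌋₊ / q + 1) := Nat.lt_mul_div_succ _ (by omega)
  have h2 : q * (⌊x⌋₊ / q) ≤ ⌊x⌋₊ := Nat.mul_div_le _ _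
  generalize ⌊x⌋₊ / q = d at h1 h2 ⊢
  obtain ⟨m, hm⟩ : ∃ m : ℕ, m = d - 1 := ⟨_, rfl⟩
  rw [← hm]
  constructor
  · have h3 : d + 1 ≤ m + 2 := by omega
    have h4 : ⌊x⌋₊ + 1 ≤ q * (m + 2) := lt_of_lt_of_le h1 (Nat.mul_le_mul_left q h3)
    have h5 : ((⌊x⌋₊ : ℝ) + 1) ≤ q * (m + 2) := by exact_mod_cast h4
    have h6 := Nat.lt_floor_add_one x
    linarith
  · have h3 : m ≤ d := by omega
    have h4 : q * m ≤ ⌊x⌋₊ := (Nat.mul_le_mul_left q h3).trans h2
    have h5 : (q : ℝ) * m ≤ (⌊x⌋₊ : ℝ) := by exact_mod_cast h4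
    exact h5.trans (Nat.floor_le hx)

/-- limits, from Mertens -/
theorem num (h : S_MERT) : S_NUM := by
  intro q s e1 zeta hq hs he1 hz hzs
  have hqr : (1 : ℝ) ≤ q := by exact_mod_cast hq
  have hq0 : (0 : ℝ) < q := by linarith
  set m : ℕ → ℕ := fun w => ⌊(w : ℝ) ^ s⌋₊ / q - 1 with hm
  have hb : ∀ w : ℕ, (w : ℝ) ^ s - 2 * q ≤ (q : ℝ) * m w ∧ (q : ℝ) * m w ≤ (w : ℝ) ^ s := fun w =>
    num_bounds q hq ((w : ℝ) ^ s) (by positivity)
  have hws : Tendsto (fun w : ℕ => (w : ℝ) ^ s) atTop atTop :=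
    (tendsto_rpow_atTop hs).comp tendsto_natCast_atTop_atTop
  -- (1)
  have hmr : Tendsto (fun w : ℕ => (m w : ℝ)) atTop atTop := by
    have h1 : Tendsto (fun w : ℕ => ((w : ℝ) ^ s - 2 * q) / q) atTop atTop :=
      (tendsto_atTop_add_const_right atTop (-(2 * (q : ℝ))) hws).atTop_div_const hq0
    refine tendsto_atTop_mono (fun w => ?_) h1
    rw [div_le_iff₀ hq0]
    linarith [(hb w).1]
  have hmn : Tendsto m atTop atTop := tendsto_natCast_atTop_iff.1 hmr
  -- (2)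
  have h2 : Tendsto (fun w : ℕ => (q : ℝ) * (m w : ℝ) / (w : ℝ) ^ s) atTop (𝓝 1) := by
    have h3 : Tendsto (fun w : ℕ => 1 - 2 * q / (w : ℝ) ^ s) atTop (𝓝 (1 - 0)) :=
      tendsto_const_nhds.sub (hws.const_div_atTop (2 * (q : ℝ)))
    rw [sub_zero] at h3
    refine tendsto_of_tendsto_of_tendsto_of_le_of_le' h3 tendsto_const_nhds ?_ ?_
    · filter_upwards [eventually_ge_atTop 1] with w hw
      have hw0 : (0 : ℝ) < (w : ℝ) ^ s := Real.rpow_pos_of_pos (by exact_mod_cast hw) _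
      rw [le_div_iff₀ hw0, sub_mul, one_mul, div_mul_cancel₀ _ hw0.ne']
      exact (hb w).1
    · filter_upwards [eventually_ge_atTop 1] with w hw
      have hw0 : (0 : ℝ) < (w : ℝ) ^ s := Real.rpow_pos_of_pos (by exact_mod_cast hw) _
      rw [div_le_one hw0]
      exact (hb w).2
  have hlog : Tendsto (fun w : ℕ => Real.log (w : ℝ)) atTop atTop :=
    Real.tendsto_log_atTop.comp tendsto_natCast_atTop_atTop
  -- log (m w) / log w → s
  have hlm : Tendsto (fun w : ℕ => Real.log (m w : ℝ) / Real.log (w : ℝ)) atTop (𝓝 s) := by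
    have h3 : Tendsto (fun w : ℕ => Real.log ((q : ℝ) * (m w : ℝ) / (w : ℝ) ^ s)) atTop (𝓝 0) := by
      have := (Real.continuousAt_log one_ne_zero).tendsto.comp h2
      rwa [Real.log_one] at this
    have h4 : Tendsto (fun w : ℕ => (Real.log ((q : ℝ) * (m w : ℝ) / (w : ℝ) ^ s) - Real.log q) /
        Real.log (w : ℝ) + s) atTop (𝓝 (0 + s)) :=
      ((h3.sub_const (Real.log q)).div_atTop hlog).add_const s
    rw [zero_add] at h4
    refine h4.congr' ?_
    filter_upwards [eventually_ge_atTop 2, hmr.eventually_ge_atTop 1] with w hw hw1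
    have hwr : (1 : ℝ) < w := by exact_mod_cast (by omega : 1 < w)
    have hw0 : (0 : ℝ) < w := by linarith
    have hl0 : 0 < Real.log (w : ℝ) := Real.log_pos hwr
    have hm0 : (0 : ℝ) < (m w : ℝ) := by linarith
    have hws0 : (0 : ℝ) < (w : ℝ) ^ s := Real.rpow_pos_of_pos hw0 _
    rw [Real.log_div (by positivity) hws0.ne', Real.log_mul hq0.ne' hm0.ne', Real.log_rpow hw0]
    field_simp
    ring
  -- the integer part
  set n : ℕ → ℕ := fun w => ⌊((m w : ℕ) : ℝ) ^ e1⌋₊ with hn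
  have hy : Tendsto (fun w : ℕ => ((m w : ℕ) : ℝ) ^ e1) atTop atTop := (tendsto_rpow_atTop he1).comp hmr
  have hnn : Tendsto n atTop atTop := tendsto_nat_floor_atTop.comp hy
  have hny : Tendsto (fun w : ℕ => (n w : ℝ) / ((m w : ℕ) : ℝ) ^ e1) atTop (𝓝 1) :=
    tendsto_nat_floor_div_atTop.comp hy
  have hln : Tendsto (fun w : ℕ => Real.log (n w : ℝ) / Real.log (w : ℝ)) atTop (𝓝 (e1 * s)) := by
    have h3 : Tendsto (fun w : ℕ => Real.log ((n w : ℝ) / ((m w : ℕ) : ℝ) ^ e1)) atTop (𝓝 0) := by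
      have := (Real.continuousAt_log one_ne_zero).tendsto.comp hny
      rwa [Real.log_one] at this
    have h4 : Tendsto (fun w : ℕ => Real.log ((n w : ℝ) / ((m w : ℕ) : ℝ) ^ e1) / Real.log (w : ℝ) +
        e1 * (Real.log (m w : ℝ) / Real.log (w : ℝ))) atTop (𝓝 (0 + e1 * s)) :=
      (h3.div_atTop hlog).add (hlm.const_mul e1)
    rw [zero_add] at h4
    refine h4.congr' ?_
    filter_upwards [eventually_ge_atTop 2, hmr.eventually_ge_atTop 1, hnn.eventually_ge_atTop 1] with w hw hw1 hw2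
    have hm0 : (0 : ℝ) < (m w : ℝ) := by linarith
    have hn0 : (0 : ℝ) < (n w : ℝ) := by exact_mod_cast hw2
    rw [Real.log_div hn0.ne' (Real.rpow_pos_of_pos hm0 _).ne', Real.log_rpow hm0]
    ring
  refine ⟨hmn, h2, ?_, ?_⟩
  · have hM1 : Tendsto (fun w : ℕ => MM (n w) / Real.log (n w : ℝ)) atTop
        (𝓝 (Real.exp Real.eulerMascheroniConstant)) := h.comp hnn
    have he0 : Real.exp Real.eulerMascheroniConstant ≠ 0 := (Real.exp_pos _).ne'
    have hes : e1 * s ≠ 0 := (mul_pos he1 hs).ne'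
    have h5 : Tendsto (fun w : ℕ => (MM w / Real.log w) / (MM (n w) / Real.log (n w : ℝ)) /
        (Real.log (n w : ℝ) / Real.log (w : ℝ))) atTop
        (𝓝 (Real.exp Real.eulerMascheroniConstant / Real.exp Real.eulerMascheroniConstant / (e1 * s))) :=
      (h.div hM1 he0).div hln hes
    rw [div_self he0] at h5
    refine h5.congr' ?_
    filter_upwards [eventually_ge_atTop 2, hnn.eventually_ge_atTop 2] with w hw hw2
    have hl1 : Real.log (w : ℝ) ≠ 0 := (Real.log_pos (by exact_mod_cast (by omega : 1 < w))).ne'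
    have hl2 : Real.log (n w : ℝ) ≠ 0 := (Real.log_pos (by exact_mod_cast (by omega : 1 < n w))).ne'
    have hMn : MM (n w) ≠ 0 := by
      unfold MM
      apply prod_ne_zero_iff.2
      intro p hp
      rw [mem_filter] at hp
      have h2p : (2 : ℝ) ≤ p := by exact_mod_cast hp.2.two_le
      have : (p : ℝ)⁻¹ ≤ 1 / 2 := by
        rw [inv_eq_one_div]
        exact one_div_le_one_div_of_le (by norm_num) h2p
      apply inv_ne_zero
      linarith
    show (MM w / Real.log w) / (MM (n w) / Real.log (n w : ℝ)) /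
        (Real.log (n w : ℝ) / Real.log (w : ℝ)) = MM w / MM (n w)
    field_simp
  · have h6 : ∀ᶠ w : ℕ in atTop, 1 / zeta < Real.log (m w : ℝ) / Real.log (w : ℝ) := by
      apply hlm.eventually_const_lt
      rw [div_lt_iff₀ hz]
      linarith
    filter_upwards [h6, eventually_ge_atTop 2, hmr.eventually_ge_atTop 1] with w hw hw2 hw1
    have hwr : (1 : ℝ) < w := by exact_mod_cast (by omega : 1 < w)
    have hl0 : 0 < Real.log (w : ℝ) := Real.log_pos hwr
    have hm0 : (0 : ℝ) < (m w : ℝ) := by linarith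
    rw [← Real.log_lt_log_iff (by linarith) (Real.rpow_pos_of_pos hm0 _), Real.log_rpow hm0]
    rw [lt_div_iff₀ hl0, one_div, inv_mul_lt_iff₀ hz] at hw
    exact hw

end Pool.Agent.H50.LS
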