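import Pool.Agent.H50.LS.Stm

/-!
# Project LS, stub PHI: `φ(q)/q` as a product over primes
-/

set_option autoImplicit false

open Finset

namespace Pool.Agent.H50.LS

open Pool.Agent.Y829

private lemma phi_fac {p : ℕ} (hp : p.Prime) : 0 < 1 - ((p : ℝ))⁻¹ ∧ 1 - ((p : ℝ))⁻¹ ≤ 1 := by
  have h2 : (2 : ℝ) ≤ p := by exact_mod_cast hp.two_le
  have h3 : ((p : ℝ))⁻¹ ≤ 2⁻¹ := inv_anti₀ (by norm_num) h2
  have h4 : 0 < ((p : ℝ))⁻¹ := by positivity
  constructor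
  · norm_num at h3 ⊢
    linarith
  · linarith

private lemma phi_tot (z0 : ℕ) : (Nat.totient (primorial z0) : ℝ) =
    (primorial z0 : ℝ) * ∏ p ∈ (range (z0 + 1)).filter Nat.Prime, (1 - ((p : ℝ))⁻¹) := by
  have h1 := Nat.totient_eq_mul_prod_factors (primorial z0)
  have h2 : (primorial z0).primeFactors = (range (z0 + 1)).filter Nat.Prime := by
    unfold primorial
    exact Nat.primeFactors_prod fun p hp => (mem_filter.1 hp).2
  rw [h2] at h1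
  have h3 : (((Nat.totient (primorial z0) : ℕ) : ℚ) : ℝ) =
      (((primorial z0 : ℚ) * ∏ p ∈ (range (z0 + 1)).filter Nat.Prime, (1 - ((p : ℚ))⁻¹) : ℚ) : ℝ) := by
    rw [h1]
  push_cast at h3
  exact h3

theorem phi : S_PHI := by
  classical
  intro z0 N e1 hN hz
  set A : Finset ℕ := (range (z0 + 1)).filter Nat.Prime with hA
  set P : Finset ℕ := Ps N z0 e1 with hP
  set y : ℕ := ⌊(N : ℝ) ^ e1⌋₊ with hy
  set T : Finset ℕ := (Finset.Icc 1 y).filter Nat.Prime with hT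
  have hdis : Disjoint A P := by
    rw [disjoint_left]
    intro p h1 h2
    have h3 := mem_range.1 (mem_filter.1 h1).1
    have h4 := (mem_Ps.1 h2).2.2.1
    omega
  have hsub : A ∪ P ⊆ T := by
    intro p hp
    rcases mem_union.1 hp with h1 | h1
    · have h2 := mem_filter.1 h1
      have h3 : p ≤ z0 := by have := mem_range.1 h2.1; omega
      refine mem_filter.2 ⟨mem_Icc.2 ⟨h2.2.one_lt.le, Nat.le_floor ?_⟩, h2.2⟩
      exact le_trans (by exact_mod_cast h3) hz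
    · have h2 := mem_Ps.1 h1
      refine mem_filter.2 ⟨mem_Icc.2 ⟨h2.1.1, Nat.le_floor ?_⟩, h2.2.1⟩
      exact ((tt_lt hN h2.2.1.pos e1).1 h2.2.2.2).le
  have hM : (Pool.Agent.H50.BF.MM y)⁻¹ = ∏ p ∈ T, (1 - ((p : ℝ))⁻¹) := by
    unfold Pool.Agent.H50.BF.MM
    rw [← Finset.prod_inv_distrib]
    exact Finset.prod_congr rfl fun p _ => inv_inv _
  have hV : V P = ∏ p ∈ P, (1 - ((p : ℝ))⁻¹) := by
    unfold V
    exact Finset.prod_congr rfl fun p _ => by rw [one_div]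
  have hT0 : ∀ p ∈ T, 0 < 1 - ((p : ℝ))⁻¹ ∧ 1 - ((p : ℝ))⁻¹ ≤ 1 :=
    fun p hp => phi_fac (mem_filter.1 hp).2
  have hle : ∏ p ∈ T, (1 - ((p : ℝ))⁻¹) ≤ ∏ p ∈ A ∪ P, (1 - ((p : ℝ))⁻¹) := by
    rw [← Finset.prod_sdiff hsub]
    have h1 : ∏ p ∈ T \ (A ∪ P), (1 - ((p : ℝ))⁻¹) ≤ 1 :=
      Finset.prod_le_one (fun p hp => (hT0 p (mem_sdiff.1 hp).1).1.le)
        fun p hp => (hT0 p (mem_sdiff.1 hp).1).2
    have h2 : 0 ≤ ∏ p ∈ A ∪ P, (1 - ((p : ℝ))⁻¹) :=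
      Finset.prod_nonneg fun p hp => (hT0 p (hsub hp)).1.le
    calc _ ≤ 1 * ∏ p ∈ A ∪ P, (1 - ((p : ℝ))⁻¹) := mul_le_mul_of_nonneg_right h1 h2
      _ = _ := one_mul _
  rw [Finset.prod_union hdis] at hle
  rw [phi_tot z0, hV, hM, mul_assoc]
  exact mul_le_mul_of_nonneg_left hle (Nat.cast_nonneg _)

end Pool.Agent.H50.LS
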