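import Pool.Agent.H50.LS.StmU

/-!
# Project LS, stub PHU: `φ(q)/q` as a product over primes, upper bound
-/

set_option autoImplicit false

open Finset

namespace Pool.Agent.H50.LS

open Pool.Agent.Y829

private lemma phu_fac {p : ℕ} (hp : p.Prime) : 0 < 1 - ((p : ℝ))⁻¹ ∧ 1 - ((p : ℝ))⁻¹ ≤ 1 := by
  have h2 : (2 : ℝ) ≤ p := by exact_mod_cast hp.two_le
  have h3 : ((p : ℝ))⁻¹ ≤ 2⁻¹ := inv_anti₀ (by norm_num) h2
  have h4 : 0 < ((p : ℝ))⁻¹ := by positivity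
  constructor
  · norm_num at h3 ⊢
    linarith
  · linarith

private lemma phu_tot (z0 : ℕ) : (Nat.totient (primorial z0) : ℝ) =
    (primorial z0 : ℝ) * ∏ p ∈ (range (z0 + 1)).filter Nat.Prime, (1 - ((p : ℝ))⁻¹) := by
  have h1 := Nat.totient_eq_mul_prod_factors (primorial z0)
  have h2 : (primorial z0).primeFactors = (range (z0 + 1)).filter Nat.Prime := by
    unfold primorial
    exact Nat.primeFactors_prod fun p hp => (mem_filter.1 hp).2
  rw [h2] at h1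
  have h3 : (((Nat.totient (primorial z0) : ℕ) : ℚ) : ℝ) =
      (((primorial z0 : ℚ) * ∏ p ∈ (range (z0 + 1)).filter Nat.Prime, (1 - ((p : ℚ))⁻¹) : ℚ) : ℝ) := by
    rw [h1]
  push_cast at h3
  exact h3

theorem phu : S_PHU := by
  classical
  intro z0 N e1 hN he
  set A : Finset ℕ := (range (z0 + 1)).filter Nat.Prime with hA
  set P : Finset ℕ := Ps N z0 e1 with hP
  set y : ℕ := ⌊(N : ℝ) ^ e1⌋₊ with hy
  set T : Finset ℕ := (Finset.Icc 1 (y - 1)).filter Nat.Prime with hT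
  have hN1 : (1 : ℝ) ≤ N := by exact_mod_cast (by omega : 1 ≤ N)
  have hdis : Disjoint A P := by
    rw [disjoint_left]
    intro p h1 h2
    have h3 := mem_range.1 (mem_filter.1 h1).1
    have h4 := (mem_Ps.1 h2).2.2.1
    omega
  have hsub : T ⊆ A ∪ P := by
    intro p hp
    obtain ⟨h1, h2⟩ := mem_filter.1 hp
    rw [mem_Icc] at h1
    rcases le_or_gt p z0 with h3 | h3
    · exact mem_union_left _ (mem_filter.2 ⟨mem_range.2 (by omega), h2⟩)
    · refine mem_union_right _ (mem_Ps.2 ?_)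
      have h4 : (p : ℝ) < (N : ℝ) ^ e1 := by
        have h5 : (y : ℝ) ≤ (N : ℝ) ^ e1 := Nat.floor_le (by positivity)
        have h6 : (p : ℝ) < y := by exact_mod_cast (by omega : p < y)
        linarith
      have h7 : (N : ℝ) ^ e1 ≤ N := by
        calc (N : ℝ) ^ e1 ≤ (N : ℝ) ^ (1 : ℝ) := Real.rpow_le_rpow_of_exponent_le hN1 he
          _ = N := Real.rpow_one _
      have h8 : (p : ℝ) ≤ N := by linarith
      exact ⟨⟨h1.1, by exact_mod_cast h8⟩, h2, h3, (tt_lt hN h2.pos e1).2 h4⟩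
  have hM : (Pool.Agent.H50.BF.MM (y - 1))⁻¹ = ∏ p ∈ T, (1 - ((p : ℝ))⁻¹) := by
    unfold Pool.Agent.H50.BF.MM
    rw [← Finset.prod_inv_distrib]
    exact Finset.prod_congr rfl fun p _ => inv_inv _
  have hV : V P = ∏ p ∈ P, (1 - ((p : ℝ))⁻¹) := by
    unfold V
    exact Finset.prod_congr rfl fun p _ => by rw [one_div]
  have hAP : ∀ p ∈ A ∪ P, 0 < 1 - ((p : ℝ))⁻¹ ∧ 1 - ((p : ℝ))⁻¹ ≤ 1 := by
    intro p hp
    rcases mem_union.1 hp with h1 | h1
    · exact phu_fac (mem_filter.1 h1).2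
    · exact phu_fac (mem_Ps.1 h1).2.1
  have hle : ∏ p ∈ A ∪ P, (1 - ((p : ℝ))⁻¹) ≤ ∏ p ∈ T, (1 - ((p : ℝ))⁻¹) := by
    rw [← Finset.prod_sdiff hsub]
    have h1 : ∏ p ∈ (A ∪ P) \ T, (1 - ((p : ℝ))⁻¹) ≤ 1 :=
      Finset.prod_le_one (fun p hp => (hAP p (mem_sdiff.1 hp).1).1.le)
        fun p hp => (hAP p (mem_sdiff.1 hp).1).2
    have h2 : 0 ≤ ∏ p ∈ T, (1 - ((p : ℝ))⁻¹) :=
      Finset.prod_nonneg fun p hp => (hAP p (hsub hp)).1.le
    calc _ ≤ 1 * ∏ p ∈ T, (1 - ((p : ℝ))⁻¹) := mul_le_mul_of_nonneg_right h1 h2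
      _ = _ := one_mul _
  rw [Finset.prod_union hdis] at hle
  rw [phu_tot z0, hV, hM, mul_assoc]
  exact mul_le_mul_of_nonneg_left hle (Nat.cast_nonneg _)

end Pool.Agent.H50.LS
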