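import Pool.Agent.H50.LS.StmQ
import Pool.Agent.H50.LS.Lim

/-! # Stub QGA: `F - f` is at most `A0 / Γ (s + 1)` -/

set_option autoImplicit false

open Finset Filter Topology

namespace Pool.Agent.H50.LS

open Pool.Agent.W23.DC (SF)
open Pool.Agent.Y829 Pool.Agent.H50.BF

namespace QGAx

/-- `(s - 1) (s - 2) ... (s - k)` -/
noncomputable def D (k : ℕ) (s : ℝ) : ℝ := ∏ i ∈ range k, (s - 1 - i)

theorem D_succ (k : ℕ) (s : ℝ) : D (k + 1) s = (s - 1) * D k (s - 1) := by
  unfold D
  rw [prod_range_succ', mul_comm]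
  congr 1
  · simp
  · refine prod_congr rfl fun i _ => ?_
    push_cast
    ring

theorem D_pos {k : ℕ} {s : ℝ} (hs : (k : ℝ) + 1 ≤ s) : 0 < D k s := by
  unfold D
  refine prod_pos fun i hi => ?_
  have : (i : ℝ) + 1 ≤ k := by exact_mod_cast mem_range.1 hi
  linarith

theorem D_mono {k : ℕ} {s x : ℝ} (hs : (k : ℝ) + 1 ≤ s) (hx : s ≤ x) : D k s ≤ D k x := by
  unfold D
  refine prod_le_prod (fun i hi => ?_) (fun i _ => by linarith)
  have : (i : ℝ) + 1 ≤ k := by exact_mod_cast mem_range.1 hi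
  linarith

theorem gam_le {t : ℝ} (h1 : 1 ≤ t) (h2 : t ≤ 2) : Real.Gamma t ≤ 1 := by
  have m1 : (1 : ℝ) ∈ Set.Ioi (0 : ℝ) := by norm_num
  have m2 : (2 : ℝ) ∈ Set.Ioi (0 : ℝ) := by norm_num
  have c1 : 0 ≤ 2 - t := by linarith
  have c2 : 0 ≤ t - 1 := by linarith
  have h := Real.convexOn_Gamma.2 m1 m2 c1 c2 (by ring)
  simp only [smul_eq_mul, Real.Gamma_one, Real.Gamma_two] at h
  have e : (2 - t) * 1 + (t - 1) * 2 = t := by ring
  rw [e] at h
  linarith

theorem gam_D (k : ℕ) : ∀ s : ℝ, (k : ℝ) + 1 ≤ s → Real.Gamma s = D k s * Real.Gamma (s - k) := by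
  induction k with
  | zero => intro s _; unfold D; simp
  | succ k ih =>
    intro s hs
    push_cast at hs
    have h0 : s - 1 ≠ 0 := by
      have : (0 : ℝ) ≤ k := Nat.cast_nonneg k
      intro h
      linarith
    have h1 := Real.Gamma_add_one h0
    rw [sub_add_cancel] at h1
    rw [h1, ih (s - 1) (by linarith), D_succ]
    push_cast
    rw [show s - 1 - (k : ℝ) = s - (k + 1) by ring]
    ring

theorem claim (h : S_QID) {A0 : ℝ} {F f : ℝ → ℝ} (hS : SF A0 F f) (k : ℕ) :
    ∀ s : ℝ, (k : ℝ) + 1 ≤ s → F s - f s ≤ A0 / (s * D k s) := by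
  have hA := hS.pos
  induction k with
  | zero =>
    intro s hs
    simp only [Nat.cast_zero, zero_add] at hs
    have hD : D 0 s = 1 := by unfold D; simp
    rw [hD, mul_one]
    rcases le_total s 2 with h2 | h2
    · rw [hS.F3 s hs (by linarith), hS.f2 s hs h2, sub_zero]
    · exact Lim.diff_le hS s h2
  | succ k ih =>
    intro s hs
    push_cast at hs
    have hk : (0 : ℝ) ≤ k := Nat.cast_nonneg k
    have hs2 : 2 ≤ s := by linarith
    have hq := h A0 F f hS s hs2
    have hDp : 0 < D k (s - 1) := D_pos (by linarith)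
    have hc : ContinuousOn (fun x => x * (F x - f x)) (Set.uIcc (s - 1) s) := by
      refine continuousOn_id.mul ((hS.cF.sub hS.cf).mono ?_)
      intro x hx
      rw [Set.uIcc_of_le (by linarith)] at hx
      exact Set.mem_Ici.2 (by linarith [hx.1])
    have hi : ∫ x in (s - 1)..s, x * (F x - f x) ≤ ∫ _x in (s - 1)..s, A0 / D k (s - 1) := by
      refine intervalIntegral.integral_mono_on (by linarith) hc.intervalIntegrable (by simp) fun x hx => ?_
      have hx1 : (k : ℝ) + 1 ≤ x := by linarith [hx.1]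
      have hx0 : 0 < x := by linarith
      have h1 := ih x hx1
      have h2 := D_mono (k := k) (s := s - 1) (x := x) (by linarith) hx.1
      have h3 : 0 < D k x := D_pos hx1
      calc x * (F x - f x) ≤ x * (A0 / (x * D k x)) := mul_le_mul_of_nonneg_left h1 hx0.le
        _ = A0 / D k x := by field_simp
        _ ≤ A0 / D k (s - 1) := div_le_div_of_nonneg_left hA.le hDp h2
    rw [intervalIntegral.integral_const, smul_eq_mul, show s - (s - 1) = 1 by ring, one_mul, ← hq] at hi
    rw [D_succ, le_div_iff₀ (by have : 0 < s - 1 := by linarith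
                                positivity)]
    rw [le_div_iff₀ hDp] at hi
    calc (F s - f s) * (s * ((s - 1) * D k (s - 1))) = s * (s - 1) * (F s - f s) * D k (s - 1) := by ring
      _ ≤ A0 := hi

end QGAx

open QGAx in
theorem qga (h : S_QID) : S_QGA := by
  intro A0 F f hS s hs
  have hA := hS.pos
  have h1 : 1 ≤ ⌊s⌋₊ := Nat.le_floor (by exact_mod_cast hs)
  obtain ⟨k, hk⟩ : ∃ k, ⌊s⌋₊ = k + 1 := ⟨⌊s⌋₊ - 1, by omega⟩
  have h2 : ((k : ℝ) + 1) ≤ s := by
    have := Nat.floor_le (show 0 ≤ s by linarith)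
    rw [hk] at this
    push_cast at this
    exact this
  have h3 : s < (k : ℝ) + 1 + 1 := by
    have := Nat.lt_floor_add_one s
    rw [hk] at this
    push_cast at this
    exact this
  refine (claim h hS k s h2).trans ?_
  have hs0 : 0 < s := by linarith
  have hD := D_pos h2
  have hG : Real.Gamma (s + 1) ≤ s * D k s := by
    rw [Real.Gamma_add_one hs0.ne', gam_D k s h2]
    have h4 := gam_le (t := s - k) (by linarith) (by linarith)
    calc s * (D k s * Real.Gamma (s - k)) ≤ s * (D k s * 1) := by gcongr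
      _ = s * D k s := by rw [mul_one]
  exact div_le_div_of_nonneg_left hA.le (Real.Gamma_pos_of_pos (by linarith)) hG

end Pool.Agent.H50.LS
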