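import Pool.Agent.H50.LS.StmQ
import Pool.Agent.H50.LS.Lim

/-! # LS-QID (helper51): the identity for the difference of the functions of the linear sieve -/

set_option autoImplicit false

open Finset Filter Topology

namespace Pool.Agent.H50.LS

open Pool.Agent.W23.DC (SF)

/-- the identity for one function -/
theorem qid_key (A0 : ℝ) (Q : ℝ → ℝ) (hQ : ContinuousOn Q (Set.Ici 1))
    (h1 : ∀ s : ℝ, 1 ≤ s → s ≤ 2 → s * Q s = A0)
    (h2 : ∀ s : ℝ, 2 ≤ s → s * Q s = A0 - ∫ x in (2 : ℝ)..s, Q (x - 1)) (s : ℝ) (hs : 2 ≤ s) :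
    s * (s - 1) * Q s = ∫ x in (s - 1)..s, x * Q x := by
  obtain ⟨q, hq⟩ : ∃ q : ℝ → ℝ, q = fun x => Q (max x 1) := ⟨_, rfl⟩
  obtain ⟨g, hg⟩ : ∃ g : ℝ → ℝ, g = fun x => max x 1 * q x := ⟨_, rfl⟩
  have hqc : Continuous q := by
    rw [hq]
    exact hQ.comp_continuous (by fun_prop) (fun x => Set.mem_Ici.2 (le_max_right x 1))
  have hgc : Continuous g := by
    rw [hg]
    fun_prop
  have hqe : ∀ x, 1 ≤ x → q x = Q x := by
    intro x hx
    rw [hq]
    simp only
    rw [max_eq_left hx]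
  have hge : ∀ x, 1 ≤ x → g x = x * Q x := by
    intro x hx
    rw [hg]
    simp only
    rw [max_eq_left hx, hqe x hx]
  have hP : ∀ t, 2 ≤ t → g t = A0 - ∫ x in (2 : ℝ)..t, q (x - 1) := by
    intro t ht
    rw [hge t (by linarith), h2 t ht]
    congr 1
    apply intervalIntegral.integral_congr
    intro x hx
    rw [Set.uIcc_of_le ht] at hx
    simp only
    rw [hqe (x - 1) (by linarith [hx.1])]
  have hdI : ∀ t, HasDerivAt (fun u => ∫ x in (1 : ℝ)..u, g x) (g t) t := fun t =>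
    (hgc.integral_hasStrictDerivAt 1 t).hasDerivAt
  have hqc1 : Continuous fun x => q (x - 1) := hqc.comp (by fun_prop)
  have hdP : ∀ t, HasDerivAt (fun u => ∫ x in (2 : ℝ)..u, q (x - 1)) (q (t - 1)) t := fun t =>
    (hqc1.integral_hasStrictDerivAt 2 t).hasDerivAt
  have hdI1 : ∀ t, HasDerivAt (fun u => ∫ x in (1 : ℝ)..(u - 1), g x) (g (t - 1)) t := by
    intro t
    exact (hdI (t - 1)).comp_sub_const t 1
  obtain ⟨H, hH⟩ : ∃ H : ℝ → ℝ, H = fun u => (u - 1) * (A0 - ∫ x in (2 : ℝ)..u, q (x - 1)) -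
    ((∫ x in (1 : ℝ)..u, g x) - ∫ x in (1 : ℝ)..(u - 1), g x) := ⟨_, rfl⟩
  have hHd : ∀ t, HasDerivAt H ((1 * (A0 - ∫ x in (2 : ℝ)..t, q (x - 1)) + (t - 1) * (0 - q (t - 1))) -
      (g t - g (t - 1))) t := by
    intro t
    rw [hH]
    exact ((((hasDerivAt_id t).sub_const 1).mul ((hasDerivAt_const t A0).sub (hdP t)))).sub ((hdI t).sub (hdI1 t))
  have hH0 : ∀ t, 2 ≤ t → HasDerivAt H 0 t := by
    intro t ht
    have h := hHd t
    rw [← hP t ht, hge (t - 1) (by linarith), hqe (t - 1) (by linarith)] at h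
    have e : (1 * g t + (t - 1) * (0 - Q (t - 1))) - (g t - (t - 1) * Q (t - 1)) = 0 := by ring
    rw [e] at h
    exact h
  have hconst := constant_of_has_deriv_right_zero (f := H) (a := 2) (b := s)
    (fun t ht => (hHd t).continuousAt.continuousWithinAt) (fun t ht => (hH0 t ht.1).hasDerivWithinAt) s ⟨hs, le_rfl⟩
  have hH2 : H 2 = 0 := by
    rw [hH]
    simp only
    have e1 : (2 : ℝ) - 1 = 1 := by norm_num
    rw [e1, intervalIntegral.integral_same, intervalIntegral.integral_same]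
    have e2 : ∫ x in (1 : ℝ)..2, g x = ∫ x in (1 : ℝ)..2, A0 := by
      apply intervalIntegral.integral_congr
      intro x hx
      rw [Set.uIcc_of_le (by norm_num)] at hx
      simp only
      rw [hge x hx.1, h1 x hx.1 hx.2]
    rw [e2, intervalIntegral.integral_const, smul_eq_mul]
    ring
  rw [hH2, hH] at hconst
  simp only at hconst
  rw [← hP s hs, hge s (by linarith)] at hconst
  have e3 : ∫ x in (s - 1)..s, x * Q x = ∫ x in (s - 1)..s, g x := by
    apply intervalIntegral.integral_congr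
    intro x hx
    rw [Set.uIcc_of_le (by linarith)] at hx
    simp only
    rw [hge x (by linarith [hx.1])]
  rw [e3, ← intervalIntegral.integral_interval_sub_left (hgc.intervalIntegrable 1 s) (hgc.intervalIntegrable 1 (s - 1))]
  linarith

theorem qid : S_QID := by
  intro A0 F f h s hs
  refine qid_key A0 (fun x => F x - f x) (h.cF.sub h.cf) ?_ ?_ s hs
  · intro s h1 h2
    rw [h.F3 s h1 (by linarith), h.f2 s h1 h2]
    have : s ≠ 0 := by linarith
    field_simp
    ring
  · intro s h2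
    rw [mul_sub, Lim.sum_eq h s h2, h.ef s h2, intervalIntegral.integral_sub (Lim.cF_sh h.cF le_rfl h2)
      (Lim.cF_sh h.cf le_rfl h2)]
    ring

end Pool.Agent.H50.LS
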