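import Pool.Agent.H50.G.S.Y829.LS3
import Pool.Agent.H50.BF.Stm

/-!
# Project LS (MP_f9960f_nt.GapConstantEveryLevel, strengthening): the linear sieve for intervals, sharp constant

For `2 < s ≤ 4` every interval of length `w^s` contains at least `(f(s) - ε) w^s ∏_{p ≤ w} (1 - 1/p)` integers without
prime factors `≤ w`, `f(s) = 2 e^γ log (s - 1) / s` (Jurkat-Richert).  So the gap constants are finite for all levels `α < 1`.

Every stub: file `Pool/Agent/H50/LS/NAME.lean`, `import Pool.Agent.H50.LS.Stm`, namespace `Pool.Agent.H50.LS`,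
`theorem name : S_NAME` (lower case); auxiliary lemmas `private` or with the prefix `name_`.
-/

set_option autoImplicit false

open Finset Filter Topology

namespace Pool.Agent.H50.LS

open Pool.Agent.W23.DC Pool.Agent.Y829 Pool.Agent.H50.BF

/-- LSS (helper50).  The linear sieve for intervals, the primes `≤ z0` left out. Adaptation of `Y829.ls`. -/
def S_LSS : Prop := ∀ (A0 : ℝ) (F f : ℝ → ℝ), SF A0 F f → ∀ zeta tau eps : ℝ, 0 < zeta → zeta < 1 / 2 → tau < 1 →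
  2 * zeta ≤ tau → 0 < eps → ∃ (z0 N0 : ℕ) (e1 : ℝ), 1 ≤ z0 ∧ 0 < e1 ∧ e1 ≤ zeta ∧ ∀ N n0 : ℕ, N0 ≤ N →
    (e1 / zeta * f (tau / zeta) - e1 * eps) * (N * V (Ps N z0 e1)) ≤
      (((Ioc n0 (n0 + N)).filter (fun n => ∀ p ∈ Ps N z0 zeta, ¬ p ∣ n)).card : ℝ)

/-- CLS (100 lines).  The primes `≤ z0` by residue classes modulo `q = primorial z0` (`∏ p ≤ z0, p`).
Proof.  For every `r < q` coprime to `q` (`φ(q)` of them, `Nat.totient_eq_card_coprime`) the numbers `n = q m + r` with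
`a < m ≤ a + N`, `a = t / q`, satisfy `t < q (a + 1) ≤ n` and `n ≤ q (a + N) + r < t + q (N + 1) ≤ t + U + 1`, so `n ≤ t + U`,
and no prime `p ≤ z0` divides `n` (it divides `q`, not `r`).  Let `Q` be the product of the elements of `Ps N z0 zeta` (primes
`> z0`), coprime to `q`; choose a natural `u` with `q u ≡ r (mod Q)` (`Nat.exists_mul_emod_eq_one_of_coprime` / the inverse in
`ZMod Q`).  Then for `p ∈ Ps`: `p ∣ q m + r ↔ p ∣ q (m + u) ↔ p ∣ m + u`.  The hypothesis with `n0 = a + u` gives at least `B`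
such `m` for this `r`, and different pairs `(r, m)` give different `n` (`n % q = r`, `n / q = m`).  Finally the `n` so obtained
are counted by `sv (fun _ => 0) w t U` (`n = t + k + 1`, `k < U`): a prime `p ≤ w` with `(t + k + 1) % p = 0 % p` would be
`≤ z0` or in `Ps N z0 zeta`. -/
def S_CLS : Prop := ∀ (z0 N w t U : ℕ) (zeta B : ℝ),
  (∀ n0 : ℕ, B ≤ (((Ioc n0 (n0 + N)).filter (fun n => ∀ p ∈ Ps N z0 zeta, ¬ p ∣ n)).card : ℝ)) →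
  (∀ p : ℕ, p.Prime → z0 < p → p ≤ w → p ∈ Ps N z0 zeta) → primorial z0 * (N + 1) ≤ U + 1 →
  (Nat.totient (primorial z0) : ℝ) * B ≤ sv (fun _ => 0) w t U

/-- PHI (50 lines).
Proof.  `φ(q) = q ∏_{p ≤ z0} (1 - 1/p)` for `q = primorial z0` (`Nat.totient_eq_mul_prod_factors`, the prime factors of `q` are
the primes `≤ z0`), `V (Ps N z0 e1) = ∏_{z0 < p, tt N p < e1, p ≤ N} (1 - 1/p)`, the two sets of primes are disjoint and contained in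
the primes `≤ ⌊N^e1⌋` (`Y829.tt_lt`: `tt N p < e1 ↔ p < N^e1`), all factors are in `(0, 1]`; `MM y = ∏_{p ≤ y} (1 - 1/p)⁻¹`. -/
def S_PHI : Prop := ∀ (z0 N : ℕ) (e1 : ℝ), 2 ≤ N → (z0 : ℝ) ≤ (N : ℝ) ^ e1 →
  (primorial z0 : ℝ) * (MM ⌊(N : ℝ) ^ e1⌋₊)⁻¹ ≤ (Nat.totient (primorial z0) : ℝ) * V (Ps N z0 e1)

/-- NUM (100 lines), `theorem num (h : S_MERT) : S_NUM`; `S_MERT : MM N / log N → e^γ`.
Proof.  `N w = ⌊w^s⌋₊ / q - 1`: `w^s/q - 3 ≤ N w ≤ w^s / q`, so `q N w / w^s → 1`, `N w → ∞`, `log (N w) / log w → s`;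
`log ⌊(N w)^e1⌋₊ / log w → e1 s` (`y/2 ≤ ⌊y⌋ ≤ y`); MERT at `w` and at `⌊(N w)^e1⌋₊ → ∞` gives the second limit.
The last: `(N w)^ζ ≥ (w^s / (2 q))^ζ = w^(s ζ) (2q)^(-ζ)` and `s ζ > 1`. -/
def S_NUM : Prop := ∀ (q : ℕ) (s e1 zeta : ℝ), 1 ≤ q → 0 < s → 0 < e1 → 0 < zeta → 1 < zeta * s →
  Tendsto (fun w : ℕ => ⌊(w : ℝ) ^ s⌋₊ / q - 1) atTop atTop ∧
  Tendsto (fun w : ℕ => (q : ℝ) * (⌊(w : ℝ) ^ s⌋₊ / q - 1 : ℕ) / (w : ℝ) ^ s) atTop (𝓝 1) ∧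
  Tendsto (fun w : ℕ => MM w / MM ⌊((⌊(w : ℝ) ^ s⌋₊ / q - 1 : ℕ) : ℝ) ^ e1⌋₊) atTop (𝓝 (1 / (e1 * s))) ∧
  ∀ᶠ w : ℕ in atTop, (w : ℝ) < ((⌊(w : ℝ) ^ s⌋₊ / q - 1 : ℕ) : ℝ) ^ zeta

/-- AZ (copy).  The constant of the linear sieve: `A0_eq` in the library file `Pool/Graph/R_seed8/Y882/JR/Lim.lean` (105 lines, over
`Stm.lean` there), with the theorem `t` of `Pool/Graph/R_seed8/Y445/JRB/Buch.lean` (Mathlib only).  Copy the two files to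
`Pool/Agent/H50/LS/Lim.lean` and `Pool/Agent/H50/LS/Buch.lean` (other namespaces), `SF` is `Pool.Agent.W23.DC.SF`. -/
def S_AZ : Prop := ∀ (A0 : ℝ) (F f : ℝ → ℝ), SF A0 F f → A0 = 2 * Real.exp Real.eulerMascheroniConstant

/-- JRL (80 lines), `theorem jrl (hl : S_LSS) (hc : S_CLS) (hp : S_PHI) (hn : S_NUM) : S_JRL`. -/
def S_JRL : Prop := ∀ (A0 : ℝ) (F f : ℝ → ℝ), SF A0 F f → ∀ s : ℝ, 2 < s → s ≤ 4 → ∀ ε : ℝ, 0 < ε → ∀ᶠ w : ℕ in atTop,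
  ∀ t : ℕ, f s - ε ≤ (sv (fun _ => 0) w t ⌊(w : ℝ) ^ s⌋₊ : ℝ) * MM w / (w : ℝ) ^ s

end Pool.Agent.H50.LS
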