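import Pool.Agent.H50.LS.Stm

/-!
# Project LS, part 3: the rate.  `F(s) - f(s) ≤ 2 e^γ / Γ(s + 1)` for the functions of the linear sieve.
-/

set_option autoImplicit false

open Finset Filter Topology

namespace Pool.Agent.H50.LS

open Pool.Agent.W23.DC (SF)
open Pool.Agent.Y829 Pool.Agent.H50.BF

/-- QID (80 lines).  Write `Q = F - f` and `G(s) = s Q(s)`.
Proof.  `Lim.sum_eq` (file `Pool/Agent/H50/LS/Lim.lean`) and `SF.ef` give `G(s) = A0 - ∫ x in 2..s, Q (x - 1)` for `s ≥ 2`, and `G = A0` on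
`[1, 2]` (`F3`, `f2`).  `Q` is continuous on `[1, ∞)` (`cF`, `cf`), so for `s > 2` `G` has the derivative `-Q(s - 1)` at `s`.  Let
`H(s) = (s - 1) G(s) - ∫ x in (s - 1)..s, G x`: continuous on `[2, ∞)`, `H(2) = A0 - A0 = 0`, and for `s > 2`
`H'(s) = G(s) - (s - 1) Q(s - 1) - (G(s) - G(s - 1)) = 0`.  So `H = 0`. (For instance `∫ x in (s-1)..s, G x = (∫ x in 1..s, G x) - ∫ x in 1..(s-1), G x`;
constancy by `constant_of_derivWithin_zero`, or `Convex.norm_image_sub_le_of_norm_hasDerivWithin_le` on `(2, b)` and continuity.) -/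
def S_QID : Prop := ∀ (A0 : ℝ) (F f : ℝ → ℝ), SF A0 F f → ∀ s : ℝ, 2 ≤ s →
  s * (s - 1) * (F s - f s) = ∫ x in (s - 1)..s, x * (F x - f x)

/-- QGA (80 lines), `theorem qga (h : S_QID) : S_QGA`.
Proof.  Claim: for every natural `k` and real `s ≥ k + 1`: `F s - f s ≤ A0 / ∏ i ∈ range (k + 1), (s - i)`.  `k = 0`: `s ≥ 2` is
`Lim.diff_le`, for `1 ≤ s ≤ 2` there is equality (`F3`, `f2`).  Step: for `s ≥ k + 2` QID and `x (F x - f x) ≤ A0 / ∏_{i=1}^k (x - i) ≤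
A0 / ∏_{i=1}^k (s - 1 - i)` for `x ∈ [s - 1, s]` give `s (s - 1) (F s - f s) ≤ A0 / ∏_{i=2}^{k+1} (s - i)`.  Finally `k = ⌊s⌋₊ - 1`:
`Γ(s + 1) = Γ(s - k) ∏ i ∈ range (k + 1), (s - i)` (`Real.Gamma_add_one`, induction) and `Γ(s - k) ≤ 1` since `1 ≤ s - k ≤ 2`
(convexity of `Γ`: `Real.convexOn_Gamma`, `Γ(1) = Γ(2) = 1`). -/
def S_QGA : Prop := ∀ (A0 : ℝ) (F f : ℝ → ℝ), SF A0 F f → ∀ s : ℝ, 1 ≤ s → F s - f s ≤ A0 / Real.Gamma (s + 1)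

/-- JRG (helper50): JRL without the condition `s ≤ 4`. -/
def S_JRG : Prop := ∀ (A0 : ℝ) (F f : ℝ → ℝ), SF A0 F f → ∀ s : ℝ, 2 < s → ∀ ε : ℝ, 0 < ε → ∀ᶠ w : ℕ in atTop,
  ∀ t : ℕ, f s - ε ≤ (sv (fun _ => 0) w t ⌊(w : ℝ) ^ s⌋₊ : ℝ) * MM w / (w : ℝ) ^ s

end Pool.Agent.H50.LS
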